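import Mathlib

set_option autoImplicit false

/-!
Stable images and retracts.
-/

namespace Pool.Agent.Helper55.SI

/-- The stable image of an endomorphism `φ` of a `K`-algebra `P`: the intersection of the images of
the iterates `φ ^ k`, `k ≥ 1`. -/
def stableImage {K P : Type*} [CommRing K] [CommRing P] [Algebra K P] (φ : P →ₐ[K] P) :
    Subalgebra K P :=
  ⨅ k : ℕ, ⨅ _ : 1 ≤ k, (φ ^ k).range

/-- A subalgebra `R` of `P` is a retract of `P` if there is an algebra homomorphism `P → R` which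
is the identity on `R`. -/
def IsRetract {K P : Type*} [CommRing K] [CommRing P] [Algebra K P] (R : Subalgebra K P) : Prop :=
  ∃ π : P →ₐ[K] R, ∀ r : R, π r = r

section

variable {K P : Type*} [Field K] [CommRing P] [Algebra K P] (φ : P →ₐ[K] P)

/-- the image of the `k`-th iterate -/
def B (k : ℕ) : Subalgebra K P := (φ ^ k).range

lemma pow_succ_apply (k : ℕ) (x : P) : (φ ^ (k + 1)) x = φ ((φ ^ k) x) := by
  rw [pow_succ']; rfl

lemma pow_succ_apply' (k : ℕ) (x : P) : (φ ^ (k + 1)) x = (φ ^ k) (φ x) := by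
  rw [pow_succ]; rfl

lemma pow_add_apply (j k : ℕ) (x : P) : (φ ^ (j + k)) x = (φ ^ j) ((φ ^ k) x) := by
  rw [pow_add]; rfl

lemma B_anti {j k : ℕ} (h : j ≤ k) : B φ k ≤ B φ j := by
  rintro x ⟨y, rfl⟩
  obtain ⟨i, rfl⟩ := Nat.exists_eq_add_of_le h
  refine ⟨(φ ^ i) y, ?_⟩
  show (φ ^ j) ((φ ^ i) y) = (φ ^ (j + i)) y
  rw [pow_add_apply]

lemma mem_stable_iff (x : P) : x ∈ stableImage φ ↔ ∀ k, x ∈ B φ k := by
  unfold stableImage
  rw [Algebra.mem_iInf]
  constructor
  · intro h k
    have h1 := h (k + 1)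
    rw [Algebra.mem_iInf] at h1
    exact B_anti φ (Nat.le_succ k) (h1 (by omega))
  · intro h k
    rw [Algebra.mem_iInf]
    intro _
    exact h k

lemma stable_le (k : ℕ) : stableImage φ ≤ B φ k := fun x hx => (mem_stable_iff φ x).mp hx k

/-- `φ` is injective on the image of a high iterate. -/
lemma exists_inj [IsNoetherianRing P] : ∃ k0, ∀ k, k0 ≤ k → ∀ x ∈ B φ k, φ x = 0 → x = 0 := by
  have hmono : Monotone (fun k : ℕ => RingHom.ker ((φ ^ k : P →ₐ[K] P) : P →+* P)) := by
    apply monotone_nat_of_le_succ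
    intro k x hx
    rw [RingHom.mem_ker] at hx ⊢
    show (φ ^ (k + 1)) x = 0
    rw [pow_succ_apply]
    have : (φ ^ k) x = 0 := hx
    rw [this, map_zero]
  obtain ⟨n, hn⟩ := monotone_stabilizes_iff_noetherian.mpr
    (inferInstance : IsNoetherian P P) ⟨_, hmono⟩
  refine ⟨n, fun k hk x hx h0 => ?_⟩
  obtain ⟨y, rfl⟩ := hx
  have h1 : (φ ^ (k + 1)) y = 0 := by
    rw [pow_succ_apply]; exact h0
  have h2 : y ∈ RingHom.ker ((φ ^ (k + 1) : P →ₐ[K] P) : P →+* P) := h1
  have h3 : RingHom.ker ((φ ^ (k + 1) : P →ₐ[K] P) : P →+* P) =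
      RingHom.ker ((φ ^ k : P →ₐ[K] P) : P →+* P) := by
    have e1 := hn (k + 1) (by omega)
    have e2 := hn k hk
    exact e1.symm.trans e2
  rw [h3] at h2
  exact h2

lemma map_stable (x : P) (hx : x ∈ stableImage φ) : φ x ∈ stableImage φ := by
  rw [mem_stable_iff] at hx ⊢
  intro k
  obtain ⟨y, hy⟩ := hx k
  refine B_anti φ (Nat.le_succ k) ⟨y, ?_⟩
  show (φ ^ (k + 1)) y = φ x
  rw [pow_succ_apply]
  congr 1

/-- The restriction of `φ` to the stable image. -/
def res : stableImage φ →ₐ[K] stableImage φ :=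
  (φ.comp (stableImage φ).val).codRestrict (stableImage φ) (fun x => map_stable φ x.1 x.2)

lemma res_apply (x : stableImage φ) : (res φ x : P) = φ x := rfl

lemma res_bij [IsNoetherianRing P] : Function.Bijective (res φ) := by
  obtain ⟨k0, hk0⟩ := exists_inj φ
  constructor
  · rw [injective_iff_map_eq_zero]
    intro x hx
    apply Subtype.ext
    have h1 : φ x = 0 := congrArg Subtype.val hx
    exact hk0 k0 le_rfl x.1 (stable_le φ k0 x.2) h1
  · intro r
    -- preimages in each B (k0 + j)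
    have h : ∀ j, ∃ s ∈ B φ (k0 + j), φ s = r := by
      intro j
      obtain ⟨q, hq⟩ := (mem_stable_iff φ r.1).mp r.2 (k0 + j + 1)
      refine ⟨(φ ^ (k0 + j)) q, ⟨q, rfl⟩, ?_⟩
      rw [← pow_succ_apply]
      exact hq
    choose s hs hsr using h
    have heq : ∀ j, s j = s 0 := by
      intro j
      have h1 : s j - s 0 ∈ B φ k0 :=
        sub_mem (B_anti φ (by omega) (hs j)) (B_anti φ (by omega) (hs 0))
      have h2 : φ (s j - s 0) = 0 := by rw [map_sub, hsr, hsr, sub_self]
      exact sub_eq_zero.mp (hk0 k0 le_rfl _ h1 h2)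
    have hmem : s 0 ∈ stableImage φ := by
      rw [mem_stable_iff]
      intro k
      have := hs k
      rw [heq] at this
      exact B_anti φ (by omega) this
    exact ⟨⟨s 0, hmem⟩, Subtype.ext (hsr 0)⟩

/-- The general criterion: if the stable image is a retract of the image of some iterate, then it
is a retract. -/
theorem retract_of_retract [IsNoetherianRing P] (k : ℕ)
    (ε : B φ k →ₐ[K] stableImage φ)
    (hε : ∀ r : stableImage φ, ε ⟨r.1, stable_le φ k r.2⟩ = r) : IsRetract (stableImage φ) := by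
  let e : stableImage φ ≃ₐ[K] stableImage φ := AlgEquiv.ofBijective (res φ) (res_bij φ)
  have he : ∀ (j : ℕ) (r : stableImage φ), ((e ^ j) r : P) = (φ ^ j) r := by
    intro j
    induction j with
    | zero => intro r; rfl
    | succ j ih =>
      intro r
      rw [pow_succ']
      show φ ((e ^ j) r : P) = _
      rw [ih, pow_succ_apply]
  let φk : P →ₐ[K] B φ k := (φ ^ k).rangeRestrict
  refine ⟨((e ^ k).symm : stableImage φ →ₐ[K] stableImage φ).comp (ε.comp φk), fun r => ?_⟩
  show (e ^ k).symm (ε (φk r)) = r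
  rw [AlgEquiv.symm_apply_eq]
  have h1 : φk (r : P) = ⟨((e ^ k) r : stableImage φ).1, stable_le φ k ((e ^ k) r).2⟩ := by
    apply Subtype.ext
    show (φ ^ k) (r : P) = ((e ^ k) r : P)
    rw [he]
  rw [h1, hε]

/-- If the chain of images stabilises, the stable image is a retract. -/
theorem retract_of_stab [IsNoetherianRing P] (k : ℕ) (h : B φ (k + 1) = B φ k) :
    IsRetract (stableImage φ) := by
  have h1 : ∀ j, B φ (k + j) = B φ k := by
    intro j
    induction j with
    | zero => rfl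
    | succ j ih =>
      apply le_antisymm (B_anti φ (by omega))
      rw [← h]
      rintro x ⟨y, rfl⟩
      have hy : (φ ^ k) y ∈ B φ (k + j) := by rw [ih]; exact ⟨y, rfl⟩
      obtain ⟨z, hz⟩ := hy
      refine ⟨z, ?_⟩
      show (φ ^ (k + (j + 1))) z = (φ ^ (k + 1)) y
      rw [← add_assoc, pow_succ_apply, pow_succ_apply]
      congr 1
  have h2 : B φ k ≤ stableImage φ := by
    intro x hx
    rw [mem_stable_iff]
    intro j
    rcases le_total j k with hj | hj
    · exact B_anti φ hj hx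
    · obtain ⟨i, rfl⟩ := Nat.exists_eq_add_of_le hj
      rw [h1 i]; exact hx
  exact retract_of_retract φ k (Subalgebra.inclusion h2) (fun r => Subtype.ext rfl)

/-- The trivial subalgebra is a retract as soon as there is a character. -/
lemma retract_of_eq_bot [Nontrivial P] (χ : P →ₐ[K] K) (h : stableImage φ = ⊥) :
    IsRetract (stableImage φ) := by
  refine ⟨(Algebra.ofId K (stableImage φ)).comp χ, fun r => ?_⟩
  obtain ⟨r, hr⟩ := r
  rw [h] at hr
  rw [Algebra.mem_bot] at hr
  obtain ⟨c, rfl⟩ := hr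
  apply Subtype.ext
  show (algebraMap K (stableImage φ) (χ (algebraMap K P c)) : P) = algebraMap K P c
  rw [AlgHom.commutes]
  rfl

/-- Finite-dimensional stabilisation. -/
theorem stab_of_finite (V : Submodule K P) [Module.Finite K V]
    (h : ∀ N, ∃ k, N ≤ k ∧ B φ k ≤ Algebra.adjoin K ((B φ k : Set P) ∩ V)) :
    ∃ k, B φ (k + 1) = B φ k := by
  have hanti : Antitone (fun k : ℕ => ((B φ k).toSubmodule.comap V.subtype)) := by
    intro j k hjk
    exact Submodule.comap_mono (fun x hx => B_anti φ hjk hx)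
  obtain ⟨N, hN⟩ := IsArtinian.monotone_stabilizes
    (⟨fun k => OrderDual.toDual ((B φ k).toSubmodule.comap V.subtype), hanti⟩ :
      ℕ →o (Submodule K V)ᵒᵈ)
  have hN' : ∀ k, N ≤ k → (B φ N).toSubmodule.comap V.subtype =
      (B φ k).toSubmodule.comap V.subtype := fun k hk => hN k hk
  obtain ⟨k, hk, hle⟩ := h N
  refine ⟨k, le_antisymm (B_anti φ (Nat.le_succ k)) (hle.trans ?_)⟩
  rw [Algebra.adjoin_le_iff]
  rintro x ⟨hx, hxV⟩
  have h1 : (⟨x, hxV⟩ : V) ∈ (B φ k).toSubmodule.comap V.subtype := hx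
  rw [← hN' k hk, hN' (k + 1) (by omega)] at h1
  exact h1

/-- eventually the part in a finite-dimensional space lies in the stable image -/
theorem eventually_mem (V : Submodule K P) [Module.Finite K V] :
    ∃ N, ∀ k, N ≤ k → ∀ x ∈ B φ k, x ∈ V → x ∈ stableImage φ := by
  have hanti : Antitone (fun k : ℕ => ((B φ k).toSubmodule.comap V.subtype)) := by
    intro j k hjk
    exact Submodule.comap_mono (fun x hx => B_anti φ hjk hx)
  obtain ⟨N, hN⟩ := IsArtinian.monotone_stabilizes
    (⟨fun k => OrderDual.toDual ((B φ k).toSubmodule.comap V.subtype), hanti⟩ :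
      ℕ →o (Submodule K V)ᵒᵈ)
  have hN' : ∀ k, N ≤ k → (B φ N).toSubmodule.comap V.subtype =
      (B φ k).toSubmodule.comap V.subtype := fun k hk => hN k hk
  refine ⟨N, fun k hk x hx hxV => ?_⟩
  rw [mem_stable_iff]
  intro j
  rcases le_total j k with hj | hj
  · exact B_anti φ hj hx
  · have h1 : (⟨x, hxV⟩ : V) ∈ (B φ k).toSubmodule.comap V.subtype := hx
    rw [← hN' k hk, hN' j (hk.trans hj)] at h1
    exact h1

end

end Pool.Agent.Helper55.SI
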