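import Mathlib
import Pool.Agent.helper55.SIDefs

set_option autoImplicit false

/-!
For every field `K` and every `n ≥ 3` there is an endomorphism of `K[x_0, ..., x_{n-1}]` whose
stable image is not a retract.

The endomorphism is `x ↦ x`, `y ↦ (1 + x) y`, `z ↦ z - (2 + x) y ^ 2`, and it fixes the other
variables.  It fixes `w = y ^ 2 + x z`, and every element of its stable image is killed by the
derivation `D = x ∂_y - 2 y ∂_z`.
-/

namespace Pool.Agent.Helper55.SICounter

open MvPolynomial

open Pool.Agent.Helper55.SI (stableImage IsRetract)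

section

variable (K : Type*) [Field K] (m : ℕ)

/-- the images of the variables -/
noncomputable def img (i : Fin (m + 3)) : MvPolynomial (Fin (m + 3)) K :=
  if i = 1 then (1 + X 0) * X 1 else if i = 2 then X 2 - (2 + X 0) * X 1 ^ 2 else X i

/-- the endomorphism -/
noncomputable def phi : MvPolynomial (Fin (m + 3)) K →ₐ[K] MvPolynomial (Fin (m + 3)) K :=
  aeval (img K m)

/-- the derivation `x ∂_y - 2 y ∂_z` -/
noncomputable def D : Derivation K (MvPolynomial (Fin (m + 3)) K) (MvPolynomial (Fin (m + 3)) K) :=
  mkDerivation K (fun i => if i = 1 then X 0 else if i = 2 then - 2 * X 1 else 0)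

lemma two_ne_one : (2 : Fin (m + 3)) ≠ 1 := by
  intro h
  have h1 := congrArg Fin.val h
  have h2 : 2 % (m + 3) = 1 % (m + 3) := h1
  rw [Nat.mod_eq_of_lt (by omega), Nat.mod_eq_of_lt (by omega)] at h2
  omega

lemma zero_ne_two : (0 : Fin (m + 3)) ≠ 2 := by
  intro h
  have h1 := congrArg Fin.val h
  have h2 : 0 = 2 % (m + 3) := h1
  rw [Nat.mod_eq_of_lt (by omega)] at h2
  omega

lemma zero_ne_one' : (0 : Fin (m + 3)) ≠ 1 := by
  intro h
  have h1 := congrArg Fin.val h
  have h2 : 0 = 1 % (m + 3) := h1
  rw [Nat.mod_eq_of_lt (by omega)] at h2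
  omega

lemma phi_X (i : Fin (m + 3)) : phi K m (X i) = img K m i := by
  unfold phi; rw [aeval_X]

lemma phi_X0 : phi K m (X 0) = X 0 := by
  rw [phi_X, img, if_neg (zero_ne_one' m), if_neg (zero_ne_two m)]

lemma phi_X1 : phi K m (X 1) = (1 + X 0) * X 1 := by
  rw [phi_X, img, if_pos rfl]

lemma phi_X2 : phi K m (X 2) = X 2 - (2 + X 0) * X 1 ^ 2 := by
  rw [phi_X, img, if_neg (two_ne_one m), if_pos rfl]

lemma D_X (i : Fin (m + 3)) :
    D K m (X i) = if i = 1 then X 0 else if i = 2 then - 2 * X 1 else 0 := by
  unfold D; rw [mkDerivation_X]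

lemma D_X0 : D K m (X 0) = 0 := by
  rw [D_X, if_neg (zero_ne_one' m), if_neg (zero_ne_two m)]

lemma D_X1 : D K m (X 1) = X 0 := by
  rw [D_X, if_pos rfl]

lemma D_X2 : D K m (X 2) = - 2 * X 1 := by
  rw [D_X, if_neg (two_ne_one m), if_pos rfl]

lemma D_phi (f : MvPolynomial (Fin (m + 3)) K) :
    D K m (phi K m f) = (1 + X 0) * phi K m (D K m f) := by
  induction f using MvPolynomial.induction_on with
  | C a =>
    have h1 : phi K m (C a) = C a := by
      unfold phi
      exact aeval_C _ _
    have h2 : D K m (C a) = 0 := (D K m).map_algebraMap a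
    rw [h1, h2, map_zero, mul_zero]
  | add p q hp hq => rw [map_add, map_add, map_add, map_add, hp, hq, mul_add]
  | mul_X p i hp =>
    have hi : D K m (phi K m (X i)) = (1 + X 0) * phi K m (D K m (X i)) := by
      by_cases h1 : i = 1
      · subst h1
        rw [phi_X1, D_X1, phi_X0, Derivation.leibniz, map_add, D_X1, D_X0]
        have : D K m 1 = 0 := (D K m).map_one_eq_zero
        rw [this]
        simp only [smul_eq_mul]
        ring
      · by_cases h2 : i = 2
        · subst h2
          rw [phi_X2, D_X2, map_sub, D_X2, Derivation.leibniz, map_add, D_X0,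
            Derivation.leibniz_pow, D_X1, map_mul, phi_X1]
          have h3 : D K m 2 = 0 := by
            have := (D K m).map_natCast 2
            exact_mod_cast this
          have h4 : phi K m (-2) = -2 := by
            rw [map_neg]
            congr 1
            exact map_ofNat _ 2
          rw [h3, h4]
          simp only [smul_eq_mul, nsmul_eq_mul]
          push_cast
          ring
        · have h3 : phi K m (X i) = X i := by
            rw [phi_X, img, if_neg h1, if_neg h2]
          have h4 : D K m (X i) = 0 := by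
            rw [D_X, if_neg h1, if_neg h2]
          rw [h3, h4, map_zero, mul_zero]
    rw [map_mul, Derivation.leibniz, Derivation.leibniz, hi, hp, map_add]
    simp only [smul_eq_mul, map_mul]
    ring

lemma D_phi_pow (k : ℕ) (f : MvPolynomial (Fin (m + 3)) K) :
    D K m ((phi K m ^ k) f) = (1 + X 0) ^ k * (phi K m ^ k) (D K m f) := by
  induction k with
  | zero => simp
  | succ k ih =>
    rw [pow_succ']
    show D K m (phi K m ((phi K m ^ k) f)) = _ * phi K m ((phi K m ^ k) (D K m f))
    rw [D_phi, ih, map_mul, map_pow, map_add, map_one, phi_X0]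
    ring

lemma constCoeff_D (f : MvPolynomial (Fin (m + 3)) K) : constantCoeff (D K m f) = 0 := by
  induction f using MvPolynomial.induction_on with
  | C a =>
    have h2 : D K m (C a) = 0 := (D K m).map_algebraMap a
    rw [h2, map_zero]
  | add p q hp hq => rw [map_add, map_add, hp, hq, add_zero]
  | mul_X p i hp =>
    rw [Derivation.leibniz, map_add]
    simp only [smul_eq_mul, map_mul, hp, constantCoeff_X, mul_zero, add_zero]
    rw [D_X]
    split_ifs <;> simp

/-- every element of the stable image is killed by `D` -/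
lemma D_stable (r : MvPolynomial (Fin (m + 3)) K) (hr : r ∈ stableImage (phi K m)) :
    D K m r = 0 := by
  by_contra hne
  have hunit : ¬ IsUnit (1 + X 0 : MvPolynomial (Fin (m + 3)) K) := by
    intro h
    have h1 := h.map (aeval (fun _ => (-1 : K)) : MvPolynomial (Fin (m + 3)) K →ₐ[K] K)
    simp at h1
  have hfin := FiniteMultiplicity.of_not_isUnit hunit hne
  obtain ⟨k, hk⟩ := hfin
  apply hk
  have h1 : r ∈ (phi K m ^ (k + 1)).range := by
    have h2 := (Algebra.mem_iInf.mp hr) (k + 1)
    exact (Algebra.mem_iInf.mp h2) (by omega)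
  obtain ⟨f, hf⟩ := h1
  have hf' : (phi K m ^ (k + 1)) f = r := hf
  rw [← hf', D_phi_pow]
  exact Dvd.intro _ rfl

/-- the invariant `w = y ^ 2 + x z` -/
noncomputable def w : MvPolynomial (Fin (m + 3)) K := X 1 ^ 2 + X 0 * X 2

lemma phi_w : phi K m (w K m) = w K m := by
  unfold w
  rw [map_add, map_pow, map_mul, phi_X0, phi_X1, phi_X2]
  ring

lemma mem_stable_of_fixed (f : MvPolynomial (Fin (m + 3)) K) (hf : phi K m f = f) :
    f ∈ stableImage (phi K m) := by
  have h : ∀ k : ℕ, (phi K m ^ k) f = f := by
    intro k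
    induction k with
    | zero => rfl
    | succ k ih =>
      rw [pow_succ']
      show phi K m ((phi K m ^ k) f) = f
      rw [ih, hf]
  rw [stableImage, Algebra.mem_iInf]
  intro k
  rw [Algebra.mem_iInf]
  intro _
  exact ⟨f, h k⟩

theorem not_retract : ¬ IsRetract (stableImage (phi K m)) := by
  rintro ⟨π, hπ⟩
  have h0 : (π (X 0) : MvPolynomial (Fin (m + 3)) K) = X 0 :=
    congrArg Subtype.val (hπ ⟨X 0, mem_stable_of_fixed K m _ (phi_X0 K m)⟩)
  have hw : (π (w K m) : MvPolynomial (Fin (m + 3)) K) = w K m :=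
    congrArg Subtype.val (hπ ⟨w K m, mem_stable_of_fixed K m _ (phi_w K m)⟩)
  set r : MvPolynomial (Fin (m + 3)) K := (π (X 1) : MvPolynomial (Fin (m + 3)) K) with hr
  set s : MvPolynomial (Fin (m + 3)) K := (π (X 2) : MvPolynomial (Fin (m + 3)) K) with hs
  have hDr : D K m r = 0 := D_stable K m r (π (X 1)).2
  have heq : r ^ 2 + X 0 * s = X 1 ^ 2 + X 0 * X 2 := by
    have h1 : (π (w K m) : MvPolynomial (Fin (m + 3)) K) = r ^ 2 + X 0 * s := by
      unfold w
      rw [map_add, map_pow, map_mul]
      push_cast
      rw [h0]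
    rw [← h1, hw]
    rfl
  have hdvd : (X 0 : MvPolynomial (Fin (m + 3)) K) ∣ (r - X 1) * (r + X 1) := by
    refine ⟨X 2 - s, ?_⟩
    linear_combination heq
  have hX0 : (X 0 : MvPolynomial (Fin (m + 3)) K) ≠ 0 := X_ne_zero _
  rcases (X_prime (R := K) (i := (0 : Fin (m + 3)))).dvd_or_dvd hdvd with h | h
  · obtain ⟨t, ht⟩ := h
    have hr' : r = X 1 + X 0 * t := by linear_combination ht
    rw [hr', map_add, Derivation.leibniz, D_X1, D_X0] at hDr
    simp only [smul_eq_mul, mul_zero, add_zero] at hDr
    have h1 : (1 + D K m t) = 0 := by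
      apply mul_left_cancel₀ hX0
      linear_combination hDr
    have h2 := congrArg constantCoeff h1
    rw [map_add, constCoeff_D, map_one, map_zero, add_zero] at h2
    exact one_ne_zero h2
  · obtain ⟨t, ht⟩ := h
    have hr' : r = - X 1 + X 0 * t := by linear_combination ht
    rw [hr', map_add, map_neg, Derivation.leibniz, D_X1, D_X0] at hDr
    simp only [smul_eq_mul, mul_zero, add_zero] at hDr
    have h1 : (-1 + D K m t) = 0 := by
      apply mul_left_cancel₀ hX0
      linear_combination hDr
    have h2 := congrArg constantCoeff h1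
    rw [map_add, constCoeff_D, map_neg, map_one, map_zero, add_zero] at h2
    exact neg_ne_zero.mpr one_ne_zero h2

end

/-- For every field `K` (of any characteristic, in particular of characteristic `0`) and every
`n ≥ 3`, some endomorphism of the polynomial algebra in `n` variables over `K` has a stable image
which is not a retract. -/
theorem exists_not_retract (K : Type*) [Field K] (n : ℕ) (hn : 3 ≤ n) :
    ∃ φ : MvPolynomial (Fin n) K →ₐ[K] MvPolynomial (Fin n) K, ¬ IsRetract (stableImage φ) := by
  obtain ⟨m, rfl⟩ : ∃ m, n = m + 3 := ⟨n - 3, by omega⟩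
  exact ⟨phi K m, not_retract K m⟩

end Pool.Agent.Helper55.SICounter
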