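import Mathlib

set_option autoImplicit false

namespace Pool.Agent.Helper55.SI

/-- The numerical inequality at the heart of the degree estimate. -/
lemma nat_ineq {a b r : ℕ} (hb : 2 ≤ b) (ha : b < a) (hr : 1 ≤ r) :
    3 * r * b + 3 * a * r + a ≤ 3 * a * r * b := by
  obtain ⟨β, rfl⟩ : ∃ β, b = 2 + β := ⟨b - 2, by omega⟩
  obtain ⟨α, rfl⟩ : ∃ α, a = 3 + β + α := ⟨a - 3 - β, by omega⟩
  obtain ⟨ρ, rfl⟩ : ∃ ρ, r = 1 + ρ := ⟨r - 1, by omega⟩
  have h1 : 3 * (2 + β) + 3 * (3 + β + α) + (3 + β + α) ≤ 3 * (3 + β + α) * (2 + β) := by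
    nlinarith [mul_nonneg (Nat.zero_le α) (Nat.zero_le β), mul_nonneg (Nat.zero_le β) (Nat.zero_le β)]
  nlinarith [Nat.mul_le_mul_left ρ h1, mul_nonneg (Nat.zero_le ρ) (Nat.zero_le (3 + β + α))]

lemma arith {Γ : Type*} [AddCommMonoid Γ] [LinearOrder Γ] [IsOrderedCancelAddMonoid Γ]
    (n m δ : Γ) (hm : 0 ≤ m) (a b r : ℕ) (hab : b • m = a • n)
    (hb : 2 ≤ b) (ha : b < a) (hr : 1 ≤ r) (h : (r * b) • m ≤ δ + r • n + r • m) : m ≤ 3 • δ := by
  have h1 : (3 * a) • ((r * b) • m) ≤ (3 * a) • (δ + r • n + r • m) := nsmul_le_nsmul_right h _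
  have e1 : (3 * a) • ((r * b) • m) = (3 * a * r * b) • m := by
    rw [← mul_nsmul']; congr 1; ring
  have e2 : (3 * a) • (δ + r • n + r • m) = a • (3 • δ) + (3 * r * b + 3 * a * r) • m := by
    rw [nsmul_add, nsmul_add, add_assoc]
    congr 1
    · rw [← mul_nsmul']; congr 1; ring
    · rw [add_nsmul, ← mul_nsmul', ← mul_nsmul']
      congr 1
      · have : 3 * a * r = (3 * r) * a := by ring
        rw [this, mul_nsmul', ← hab, ← mul_nsmul']
  rw [e1, e2] at h1
  have h2 : (3 * r * b + 3 * a * r + a) • m ≤ (3 * a * r * b) • m :=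
    nsmul_le_nsmul_left hm (nat_ineq hb ha hr)
  have h3 := h2.trans h1
  rw [add_nsmul m (3 * r * b + 3 * a * r) a, add_comm ((3 * r * b + 3 * a * r) • m)] at h3
  have h4 : a • m ≤ a • (3 • δ) := le_of_add_le_add_right h3
  by_contra hcon
  rw [not_le] at hcon
  have := nsmul_lt_nsmul_right (n := a) (by omega) hcon
  exact absurd h4 (not_le.mpr this)

open Polynomial in
/-- Root multiplicity at `1` of a polynomial in `X ^ b` times a power of `X`. -/
lemma rootMult_expand {K : Type*} [Field K] [CharZero K] (H : K[X]) (c b : ℕ) (hb : 1 ≤ b)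
    (hH : H ≠ 0) :
    (X ^ c * expand K b H).rootMultiplicity 1 * b ≤ (X ^ c * expand K b H).natDegree := by
  have hbpos : 0 < b := hb
  have hexp : expand K b H ≠ 0 := by
    rwa [Ne, expand_eq_zero hbpos]
  have hXc : (X ^ c : K[X]) ≠ 0 := pow_ne_zero _ X_ne_zero
  -- factor H
  obtain ⟨Q, hQ, hQ1⟩ : ∃ Q : K[X], H = (X - C 1) ^ (H.rootMultiplicity 1) * Q ∧ Q.eval 1 ≠ 0 :=
    ⟨H /ₘ (X - C 1) ^ H.rootMultiplicity 1,
      (pow_mul_divByMonic_rootMultiplicity_eq H 1).symm,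
      eval_divByMonic_pow_rootMultiplicity_ne_zero 1 hH⟩
  set ρ := H.rootMultiplicity 1 with hρ
  have hgeom : (X ^ b - 1 : K[X]) = (X - C 1) * ∑ i ∈ Finset.range b, X ^ i := by
    rw [map_one, mul_comm]
    exact (geom_sum_mul X b).symm
  have hval : (∑ i ∈ Finset.range b, (X : K[X]) ^ i).eval 1 ≠ 0 := by
    rw [eval_finsetSum]
    simp only [eval_pow, eval_X, one_pow, Finset.sum_const, Finset.card_range, nsmul_eq_mul, mul_one]
    exact_mod_cast hbpos.ne'
  have hQb : (expand K b Q).eval 1 ≠ 0 := by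
    rw [expand_eval, one_pow]; exact hQ1
  have hfac : X ^ c * expand K b H =
      (X - C 1) ^ ρ * (X ^ c * (∑ i ∈ Finset.range b, (X : K[X]) ^ i) ^ ρ * expand K b Q) := by
    conv_lhs => rw [hQ]
    rw [map_mul, map_pow, map_sub, expand_X, expand_C, map_one, hgeom, mul_pow, map_one]
    ring
  have hrest : (X ^ c * (∑ i ∈ Finset.range b, (X : K[X]) ^ i) ^ ρ * expand K b Q).eval 1 ≠ 0 := by
    rw [eval_mul, eval_mul, eval_pow, eval_pow, eval_X, one_pow, one_mul]
    exact mul_ne_zero (pow_ne_zero _ hval) hQb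
  have hmult : (X ^ c * expand K b H).rootMultiplicity 1 = ρ := by
    have hne : (X - C 1) ^ ρ *
        (X ^ c * (∑ i ∈ Finset.range b, (X : K[X]) ^ i) ^ ρ * expand K b Q) ≠ 0 := by
      rw [← hfac]; exact mul_ne_zero hXc hexp
    rw [hfac, rootMultiplicity_mul hne, rootMultiplicity_X_sub_C_pow,
      rootMultiplicity_eq_zero hrest, add_zero]
  rw [hmult]
  have hle : ρ ≤ H.natDegree := by
    have h1 : H.natDegree = ρ + Q.natDegree := by
      conv_lhs => rw [hQ]
      rw [natDegree_mul, natDegree_pow, natDegree_X_sub_C, mul_one]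
      · exact pow_ne_zero _ (X_sub_C_ne_zero 1)
      · intro h0; rw [h0] at hQ1; simp at hQ1
    omega
  rw [natDegree_mul hXc hexp, natDegree_X_pow, natDegree_expand]
  nlinarith

end Pool.Agent.Helper55.SI
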