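import Mathlib

set_option autoImplicit false

/-!
Jacobians in two variables.
-/

namespace Pool.Agent.Helper55.SI

open MvPolynomial

variable {K : Type*} [Field K]

/-- The derivation `h ↦ Jac(f, h)`. -/
noncomputable def J (f : MvPolynomial (Fin 2) K) :
    Derivation K (MvPolynomial (Fin 2) K) (MvPolynomial (Fin 2) K) :=
  (pderiv 0 f) • pderiv 1 - (pderiv 1 f) • pderiv 0

lemma J_apply (f h : MvPolynomial (Fin 2) K) :
    J f h = pderiv 0 f * pderiv 1 h - pderiv 1 f * pderiv 0 h := by
  unfold J
  simp [Derivation.sub_apply, Derivation.smul_apply, smul_eq_mul]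

lemma J_self (f : MvPolynomial (Fin 2) K) : J f f = 0 := by
  rw [J_apply]; ring

lemma J_swap (f h : MvPolynomial (Fin 2) K) : J h f = - J f h := by
  rw [J_apply, J_apply]; ring

/-- chain rule for a derivation and evaluation at a pair -/
lemma deriv_aeval (D : Derivation K (MvPolynomial (Fin 2) K) (MvPolynomial (Fin 2) K))
    (f g : MvPolynomial (Fin 2) K) (G : MvPolynomial (Fin 2) K) :
    D (aeval ![f, g] G) = aeval ![f, g] (pderiv 0 G) * D f + aeval ![f, g] (pderiv 1 G) * D g := by
  induction G using MvPolynomial.induction_on with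
  | C a => simp [Derivation.map_algebraMap]
  | add p q hp hq => simp only [map_add, hp, hq]; ring
  | mul_X p i hp =>
    have h0 : D (aeval ![f, g] (X i : MvPolynomial (Fin 2) K)) =
        aeval ![f, g] (pderiv 0 (X i : MvPolynomial (Fin 2) K)) * D f +
        aeval ![f, g] (pderiv 1 (X i : MvPolynomial (Fin 2) K)) * D g := by
      fin_cases i
      · simp [pderiv_X]
      · simp [pderiv_X]
    simp only [map_mul, Derivation.leibniz, smul_eq_mul, map_add, hp, h0]
    ring

lemma J_aeval (f g G : MvPolynomial (Fin 2) K) :
    J f (aeval ![f, g] G) = aeval ![f, g] (pderiv 1 G) * J f g := by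
  rw [deriv_aeval, J_self, mul_zero, zero_add]

/-- A derivation vanishing on a subalgebra over which everything is algebraic is zero
(characteristic zero). -/
lemma derivation_eq_zero [CharZero K] (S : Subalgebra K (MvPolynomial (Fin 2) K))
    (D : Derivation K (MvPolynomial (Fin 2) K) (MvPolynomial (Fin 2) K))
    (hD : ∀ s ∈ S, D s = 0) [hS : Algebra.IsAlgebraic S (MvPolynomial (Fin 2) K)]
    (z : MvPolynomial (Fin 2) K) : D z = 0 := by
  classical
  have hz := hS.isAlgebraic z
  obtain ⟨p0, hp0, hp0z⟩ := hz
  have hex : ∃ n : ℕ, ∃ p : Polynomial S, p ≠ 0 ∧ Polynomial.aeval z p = 0 ∧ p.natDegree = n :=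
    ⟨_, p0, hp0, hp0z, rfl⟩
  obtain ⟨p, hp, hpz, hpn⟩ := Nat.find_spec hex
  have hmin : ∀ q : Polynomial S, q.natDegree < Nat.find hex → Polynomial.aeval z q = 0 → q = 0 := by
    intro q hq hqz
    by_contra hne
    exact Nat.find_min hex hq ⟨q, hne, hqz, rfl⟩
  -- derivative formula
  have hder : ∀ q : Polynomial S, D (Polynomial.aeval z q) =
      Polynomial.aeval z (Polynomial.derivative q) * D z := by
    intro q
    induction q using Polynomial.induction_on' with
    | add a b ha hb => simp only [map_add, ha, hb]; ring
    | monomial n a =>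
      rw [Polynomial.aeval_monomial, Polynomial.derivative_monomial, Polynomial.aeval_monomial]
      have ha : D (algebraMap S (MvPolynomial (Fin 2) K) a) = 0 := hD a.1 a.2
      rw [Derivation.leibniz, ha, Derivation.leibniz_pow]
      simp only [smul_eq_mul, mul_zero, add_zero, nsmul_eq_mul, map_mul, map_natCast]
      ring
  have h1 := hder p
  rw [hpz, map_zero] at h1
  have hpos : 0 < p.natDegree := by
    rw [Nat.pos_iff_ne_zero]
    intro h0
    rw [Polynomial.natDegree_eq_zero] at h0
    obtain ⟨c, rfl⟩ := h0
    rw [Polynomial.aeval_C] at hpz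
    apply hp
    have : c = 0 := by
      apply Subtype.ext
      exact hpz
    rw [this, map_zero]
  have hd0 : Polynomial.derivative p ≠ 0 := by
    intro h0
    have := Polynomial.derivative_eq_zero.mp h0
    omega
  have hdz : Polynomial.aeval z (Polynomial.derivative p) ≠ 0 := by
    intro h0
    apply hd0
    apply hmin _ _ h0
    rw [← hpn]
    exact Polynomial.natDegree_derivative_lt hpos.ne'
  rcases mul_eq_zero.mp h1.symm with h | h
  · exact absurd h hdz
  · exact h

/-- The Jacobian of an algebraically independent pair is nonzero. -/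
theorem J_ne_zero [CharZero K] (u v : MvPolynomial (Fin 2) K)
    (h : AlgebraicIndependent K ![u, v]) : J u v ≠ 0 := by
  intro hJ
  have htb : IsTranscendenceBasis K ![u, v] := by
    apply h.isTranscendenceBasis_of_lift_trdeg_le_of_finite
    simp
  have hS : Algebra.IsAlgebraic (Algebra.adjoin K (Set.range ![u, v])) (MvPolynomial (Fin 2) K) :=
    htb.isAlgebraic
  have hD : ∀ s ∈ Algebra.adjoin K (Set.range ![u, v]), J u s = 0 := by
    intro s hs
    induction hs using Algebra.adjoin_induction with
    | mem x hx =>
      obtain ⟨i, rfl⟩ := hx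
      fin_cases i
      · exact J_self u
      · exact hJ
    | algebraMap r => exact (J u).map_algebraMap r
    | add x y _ _ hx hy => rw [map_add, hx, hy, add_zero]
    | mul x y _ _ hx hy => rw [Derivation.leibniz, hx, hy, smul_zero, smul_zero, add_zero]
  have hz := derivation_eq_zero (Algebra.adjoin K (Set.range ![u, v])) (J u) hD
  have h0 := hz (X 0)
  have h1 := hz (X 1)
  rw [J_apply] at h0 h1
  simp [pderiv_X] at h0 h1
  -- both partial derivatives vanish, so u is constant
  have hu : ∃ c, u = C c := by
    refine ⟨coeff 0 u, ?_⟩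
    ext s
    rw [coeff_C]
    by_cases hs : s = 0
    · subst hs; simp
    · rw [if_neg (Ne.symm hs)]
      obtain ⟨i, hi⟩ : ∃ i, s i ≠ 0 := by
        by_contra hcon
        push Not at hcon
        exact hs (Finsupp.ext hcon)
      have hsi : s = (s - Finsupp.single i 1) + Finsupp.single i 1 := by
        ext j
        simp only [Finsupp.coe_add, Finsupp.coe_tsub, Pi.add_apply, Pi.sub_apply]
        by_cases hj : j = i
        · subst hj
          simp
          omega
        · rw [Finsupp.single_eq_of_ne hj]; omega
      have hpd : pderiv i u = 0 := by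
        fin_cases i
        · exact h1
        · exact h0
      have hc := congrArg (coeff (s - Finsupp.single i 1)) hpd
      rw [coeff_pderiv, ← hsi, coeff_zero] at hc
      have hne : ∀ k : ℕ, (k : K) + 1 ≠ 0 := by
        intro k
        exact_mod_cast Nat.succ_ne_zero k
      rcases mul_eq_zero.mp hc with h | h
      · exact h
      · exact absurd h (hne _)
  obtain ⟨c, hc⟩ := hu
  have hinj := h
  unfold AlgebraicIndependent at hinj
  have : (X 0 - C c : MvPolynomial (Fin 2) K) = 0 := by
    apply hinj
    simp [hc]
  have h2 := congrArg (coeff (Finsupp.single (0 : Fin 2) 1)) this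
  have h3 : ¬ ((0 : Fin 2 →₀ ℕ) = Finsupp.single (0 : Fin 2) 1) := by
    intro h3
    have := DFunLike.congr_fun h3 0
    simp at this
  rw [coeff_sub, coeff_C, coeff_X, coeff_zero, if_neg h3, if_pos rfl, sub_zero] at h2
  exact one_ne_zero h2

end Pool.Agent.Helper55.SI
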