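import Mathlib
import Pool.Agent.helper55.SIArith
import Pool.Agent.helper55.SIJac

set_option autoImplicit false

/-!
The degree estimate: if `p = G(f, g)` and `G` involves the second variable, then
`deg g ≤ 3 deg p` (for suitable `f`, `g`).
-/

namespace Pool.Agent.Helper55.SI

open MvPolynomial

/-- The degree-lexicographic order. -/
noncomputable abbrev mo : MonomialOrder (Fin 2) := MonomialOrder.degLex

variable {K : Type*} [Field K]

/-- degree with values in the ordered monoid -/
noncomputable def dg (p : MvPolynomial (Fin 2) K) : mo.syn := mo.toSyn (mo.degree p)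

lemma dg_nonneg (p : MvPolynomial (Fin 2) K) : 0 ≤ dg p := mo.zero_le _

lemma dg_mul {p q : MvPolynomial (Fin 2) K} (hp : p ≠ 0) (hq : q ≠ 0) :
    dg (p * q) = dg p + dg q := by
  unfold dg
  rw [mo.degree_mul hp hq, map_add]

lemma dg_mul_le (p q : MvPolynomial (Fin 2) K) : dg (p * q) ≤ dg p + dg q := by
  unfold dg
  rw [← map_add]
  exact mo.degree_mul_le

lemma dg_sub_le (p q : MvPolynomial (Fin 2) K) : dg (p - q) ≤ max (dg p) (dg q) := by
  unfold dg
  exact mo.degree_sub_le

lemma dg_le_of_support {p q : MvPolynomial (Fin 2) K} (h : p.support ⊆ q.support) :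
    dg p ≤ dg q := mo.degree_le_degree_of_support_subset h

lemma support_X_mul_pderiv (i : Fin 2) (f : MvPolynomial (Fin 2) K) :
    (X i * pderiv i f).support ⊆ f.support := by
  classical
  intro s hs
  rw [mem_support_iff] at hs ⊢
  intro h0
  apply hs
  rw [coeff_X_mul']
  split_ifs with hi
  · rw [coeff_pderiv]
    have : s - Finsupp.single i 1 + Finsupp.single i 1 = s := by
      ext j
      simp only [Finsupp.coe_add, Finsupp.coe_tsub, Pi.add_apply, Pi.sub_apply]
      by_cases hj : j = i
      · subst hj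
        simp only [Finsupp.mem_support_iff] at hi
        simp
        omega
      · rw [Finsupp.single_eq_of_ne hj]; omega
    rw [this, h0, zero_mul]
  · rfl

/-- degree of the Jacobian -/
lemma dg_J_le (f h : MvPolynomial (Fin 2) K) (hJ : J f h ≠ 0) : dg (J f h) ≤ dg f + dg h := by
  have h1 : X 0 * X 1 * J f h =
      (X 0 * pderiv 0 f) * (X 1 * pderiv 1 h) - (X 1 * pderiv 1 f) * (X 0 * pderiv 0 h) := by
    rw [J_apply]; ring
  have hX : (X 0 * X 1 : MvPolynomial (Fin 2) K) ≠ 0 := mul_ne_zero (X_ne_zero _) (X_ne_zero _)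
  have h2 : dg (J f h) ≤ dg (X 0 * X 1 * J f h) := by
    rw [dg_mul hX hJ]
    exact le_add_of_nonneg_left (dg_nonneg _)
  refine h2.trans ?_
  rw [h1]
  refine (dg_sub_le _ _).trans (max_le ?_ ?_)
  · refine (dg_mul_le _ _).trans (add_le_add ?_ ?_)
    · exact dg_le_of_support (support_X_mul_pderiv 0 f)
    · exact dg_le_of_support (support_X_mul_pderiv 1 h)
  · refine (dg_mul_le _ _).trans (add_le_add ?_ ?_)
    · exact dg_le_of_support (support_X_mul_pderiv 1 f)
    · exact dg_le_of_support (support_X_mul_pderiv 0 h)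

/-- the partial derivative in the second variable as a linear endomorphism -/
noncomputable def dY : Module.End K (MvPolynomial (Fin 2) K) :=
  ((pderiv 1 : Derivation K (MvPolynomial (Fin 2) K) (MvPolynomial (Fin 2) K)) :
    MvPolynomial (Fin 2) K →ₗ[K] MvPolynomial (Fin 2) K)

lemma dY_apply (p : MvPolynomial (Fin 2) K) : dY p = pderiv 1 p := rfl

lemma dY_pow_monomial (r : ℕ) (s : Fin 2 →₀ ℕ) (c : K) :
    (dY ^ r) (monomial s c) =
      monomial (s - Finsupp.single 1 r) (c * ((s 1).descFactorial r : K)) := by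
  induction r with
  | zero => simp
  | succ r ih =>
    rw [pow_succ', Module.End.mul_apply, ih, dY_apply, pderiv_monomial]
    have h1 : s - Finsupp.single 1 r - Finsupp.single 1 1 = s - Finsupp.single 1 (r + 1) := by
      rw [Finsupp.single_add, tsub_add_eq_tsub_tsub]
    have h2 : (s - Finsupp.single 1 r : Fin 2 →₀ ℕ) 1 = s 1 - r := by
      rw [Finsupp.coe_tsub, Pi.sub_apply, Finsupp.single_eq_same]
    rw [h1, h2, Nat.descFactorial_succ]
    congr 1
    push_cast
    ring

variable {f g : MvPolynomial (Fin 2) K}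

lemma aeval_monomial' (s : Fin 2 →₀ ℕ) (c : K) :
    aeval ![f, g] (monomial s c) = C c * (f ^ (s 0) * g ^ (s 1)) := by
  rw [aeval_monomial, Finsupp.prod_fintype _ _ (by simp), Fin.prod_univ_two]
  rfl

lemma ev_dY (G : MvPolynomial (Fin 2) K) (r : ℕ) :
    aeval ![f, g] ((dY ^ r) G) = ∑ s ∈ G.support,
      C (coeff s G * ((s 1).descFactorial r : K)) * (f ^ (s 0) * g ^ (s 1 - r)) := by
  conv_lhs => rw [← support_sum_monomial_coeff G]
  rw [map_sum, map_sum]
  apply Finset.sum_congr rfl
  intro s _
  rw [dY_pow_monomial, aeval_monomial']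
  have h2 : (s - Finsupp.single 1 r : Fin 2 →₀ ℕ) 1 = s 1 - r := by
    rw [Finsupp.coe_tsub, Pi.sub_apply, Finsupp.single_eq_same]
  have h3 : (s - Finsupp.single 1 r : Fin 2 →₀ ℕ) 0 = s 0 := by
    rw [Finsupp.coe_tsub, Pi.sub_apply, Finsupp.single_eq_of_ne (by decide), Nat.sub_zero]
  rw [h2, h3]

/-- exponent of the leading monomial of `f ^ i * g ^ j` -/
noncomputable def E (f g : MvPolynomial (Fin 2) K) (i j : ℕ) : Fin 2 →₀ ℕ :=
  i • mo.degree f + j • mo.degree g

lemma toSyn_E (i j : ℕ) : mo.toSyn (E f g i j) = i • dg f + j • dg g := by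
  unfold E dg
  rw [map_add, map_nsmul, map_nsmul]

lemma coeff_fg (hf : mo.Monic f) (hg : mo.Monic g) (i j : ℕ) (W : Fin 2 →₀ ℕ)
    (hW : mo.toSyn (E f g i j) ≤ mo.toSyn W) [Decidable (E f g i j = W)] :
    coeff W (f ^ i * g ^ j) = if E f g i j = W then 1 else 0 := by
  have hf0 : f ≠ 0 := hf.ne_zero
  have hg0 : g ≠ 0 := hg.ne_zero
  have hdeg : mo.degree (f ^ i * g ^ j) = E f g i j := by
    rw [mo.degree_mul (pow_ne_zero _ hf0) (pow_ne_zero _ hg0), mo.degree_pow, mo.degree_pow]
    rfl
  split_ifs with h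
  · rw [← h, ← hdeg]
    have : mo.Monic (f ^ i * g ^ j) := (hf.pow).mul (hg.pow)
    exact this.coeff_degree
  · apply mo.coeff_eq_zero_of_lt
    rw [hdeg]
    refine lt_of_le_of_ne hW ?_
    intro h1
    exact h (mo.toSyn.injective h1)

/-- the weight of an exponent -/
noncomputable def wt (f g : MvPolynomial (Fin 2) K) (s : Fin 2 →₀ ℕ) : mo.syn :=
  s 0 • dg f + s 1 • dg g

/-- the top polynomial -/
noncomputable def top (f g G : MvPolynomial (Fin 2) K) (W : mo.syn) : Polynomial K := by
  classical
  exact ∑ s ∈ G.support.filter (fun s => wt f g s = W), Polynomial.C (coeff s G) * Polynomial.X ^ (s 1)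

lemma top_coeff (hf : mo.Monic f) (hg : mo.Monic g) (G : MvPolynomial (Fin 2) K) (W : mo.syn)
    (hW : ∀ s ∈ G.support, wt f g s ≤ W) (r : ℕ) (s0 : Fin 2 →₀ ℕ)
    (hs0 : wt f g s0 = W) (hr : r ≤ s0 1) :
    coeff (E f g (s0 0) (s0 1 - r)) (aeval ![f, g] ((dY ^ r) G)) =
      (Polynomial.derivative^[r] (top f g G W)).eval 1 := by
  classical
  rw [ev_dY, coeff_sum]
  unfold top
  rw [Polynomial.iterate_derivative_sum, Polynomial.eval_finsetSum, Finset.sum_filter]
  apply Finset.sum_congr rfl
  intro s hs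
  have hrhs : Polynomial.eval 1 (Polynomial.derivative^[r]
      (Polynomial.C (coeff s G) * Polynomial.X ^ (s 1))) =
      coeff s G * ((s 1).descFactorial r : K) := by
    rw [Polynomial.iterate_derivative_C_mul, Polynomial.iterate_derivative_X_pow_eq_natCast_mul]
    simp
  rw [hrhs, coeff_C_mul]
  by_cases hsr : r ≤ s 1
  · have hWs0 : mo.toSyn (E f g (s0 0) (s0 1 - r)) + r • dg g = W := by
      rw [toSyn_E, add_assoc, ← add_nsmul, Nat.sub_add_cancel hr, ← hs0]
      rfl
    have hWs : mo.toSyn (E f g (s 0) (s 1 - r)) + r • dg g = wt f g s := by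
      rw [toSyn_E, add_assoc, ← add_nsmul, Nat.sub_add_cancel hsr]
      rfl
    have hle : mo.toSyn (E f g (s 0) (s 1 - r)) ≤ mo.toSyn (E f g (s0 0) (s0 1 - r)) := by
      have := hW s hs
      rw [← hWs, ← hWs0] at this
      exact le_of_add_le_add_right this
    rw [coeff_fg hf hg _ _ _ hle]
    have hiff : E f g (s 0) (s 1 - r) = E f g (s0 0) (s0 1 - r) ↔ wt f g s = W := by
      rw [← hWs, ← hWs0, add_left_inj]
      exact ⟨fun h => by rw [h], fun h => mo.toSyn.injective h⟩
    simp only [hiff, mul_ite, mul_one, mul_zero]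
  · have h0 : (s 1).descFactorial r = 0 := Nat.descFactorial_eq_zero_iff_lt.mpr (by omega)
    rw [h0]
    simp

lemma top_coeff_at (G : MvPolynomial (Fin 2) K) (W : mo.syn) (hn : 0 < dg f)
    (s : Fin 2 →₀ ℕ) (hs : wt f g s = W) : (top f g G W).coeff (s 1) = coeff s G := by
  classical
  unfold top
  rw [Polynomial.finset_sum_coeff]
  by_cases hsG : s ∈ G.support
  · rw [Finset.sum_eq_single_of_mem s (by rw [Finset.mem_filter]; exact ⟨hsG, hs⟩)]
    · simp
    · intro s' hs' hne
      rw [Finset.mem_filter] at hs'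
      rw [Polynomial.coeff_C_mul, Polynomial.coeff_X_pow, if_neg, mul_zero]
      intro h1
      apply hne
      have h2 : s' 0 • dg f = s 0 • dg f := by
        have := hs'.2.trans hs.symm
        unfold wt at this
        rw [h1] at this
        exact add_right_cancel this
      have h3 : s' 0 = s 0 := by
        rcases lt_trichotomy (s' 0) (s 0) with h | h | h
        · exact absurd h2 (nsmul_lt_nsmul_left hn h).ne
        · exact h
        · exact absurd h2 (nsmul_lt_nsmul_left hn h).ne'
      ext i
      fin_cases i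
      · exact h3
      · exact h1.symm
  · rw [Finset.sum_eq_zero, notMem_support_iff.mp hsG]
    intro s' hs'
    rw [Finset.mem_filter] at hs'
    rw [Polynomial.coeff_C_mul, Polynomial.coeff_X_pow]
    split_ifs with h1
    · exfalso
      apply hsG
      have h2 : s' 0 • dg f = s 0 • dg f := by
        have := hs'.2.trans hs.symm
        unfold wt at this
        rw [h1] at this
        exact add_right_cancel this
      have h3 : s' 0 = s 0 := by
        rcases lt_trichotomy (s' 0) (s 0) with h | h | h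
        · exact absurd h2 (nsmul_lt_nsmul_left hn h).ne
        · exact h
        · exact absurd h2 (nsmul_lt_nsmul_left hn h).ne'
      have : s' = s := by
        ext i
        fin_cases i
        · exact h3
        · exact h1.symm
      rw [← this]; exact hs'.1
    · rw [mul_zero]

lemma exists_of_top_coeff_ne (G : MvPolynomial (Fin 2) K) (W : mo.syn) (j : ℕ)
    (h : (top f g G W).coeff j ≠ 0) : ∃ s ∈ G.support, wt f g s = W ∧ s 1 = j := by
  classical
  unfold top at h
  rw [Polynomial.finset_sum_coeff] at h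
  obtain ⟨s, hs, hs'⟩ := Finset.exists_ne_zero_of_sum_ne_zero h
  rw [Finset.mem_filter] at hs
  rw [Polynomial.coeff_C_mul, Polynomial.coeff_X_pow] at hs'
  refine ⟨s, hs.1, hs.2, ?_⟩
  by_contra hne
  rw [if_neg (Ne.symm hne), mul_zero] at hs'
  exact hs' rfl

/-- iterating the Jacobian inequality -/
lemma dg_iter (hJ : J f g ≠ 0) (G : MvPolynomial (Fin 2) K) (r : ℕ)
    (h : aeval ![f, g] ((dY ^ r) G) ≠ 0) :
    aeval ![f, g] G ≠ 0 ∧ dg (aeval ![f, g] ((dY ^ r) G)) ≤ dg (aeval ![f, g] G) + r • dg f := by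
  induction r with
  | zero =>
    simp only [pow_zero, Module.End.one_apply] at h ⊢
    exact ⟨h, by simp⟩
  | succ r ih =>
    have h1 : J f (aeval ![f, g] ((dY ^ r) G)) = aeval ![f, g] ((dY ^ (r + 1)) G) * J f g := by
      rw [J_aeval, pow_succ', Module.End.mul_apply, dY_apply]
    have h2 : J f (aeval ![f, g] ((dY ^ r) G)) ≠ 0 := by
      rw [h1]; exact mul_ne_zero h hJ
    have h3 : aeval ![f, g] ((dY ^ r) G) ≠ 0 := by
      intro h0
      rw [h0, map_zero] at h2
      exact h2 rfl
    obtain ⟨h4, h5⟩ := ih h3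
    refine ⟨h4, ?_⟩
    have h6 : dg (aeval ![f, g] ((dY ^ (r + 1)) G)) ≤ dg (J f (aeval ![f, g] ((dY ^ r) G))) := by
      rw [h1, dg_mul h hJ]
      exact le_add_of_nonneg_right (dg_nonneg _)
    refine h6.trans ((dg_J_le _ _ h2).trans ?_)
    rw [add_nsmul, one_nsmul, ← add_assoc, add_comm (dg f)]
    exact add_le_add_left h5 _

/-- The degree estimate. -/
theorem degree_estimate [CharZero K] (hf : mo.Monic f) (hg : mo.Monic g) (hn : 0 < dg f)
    (hle : dg f ≤ dg g) (hred : ∀ a : ℕ, dg g ≠ a • dg f) (hJ : J f g ≠ 0)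
    (G : MvPolynomial (Fin 2) K) (hG : ∃ s ∈ G.support, 1 ≤ s 1) :
    aeval ![f, g] G ≠ 0 ∧ dg g ≤ 3 • dg (aeval ![f, g] G) := by
  classical
  have hm : 0 < dg g := lt_of_lt_of_le hn hle
  -- the maximal weight
  obtain ⟨sG, hsG, hsG1⟩ := hG
  obtain ⟨t, ht, htmax⟩ := Finset.exists_max_image G.support (fun s => wt f g s) ⟨sG, hsG⟩
  set W := wt f g t with hWdef
  set h := top f g G W with hh
  have hne : h ≠ 0 := by
    intro h0
    have h1 := top_coeff_at (g := g) G W hn t rfl
    rw [← hh, h0, Polynomial.coeff_zero] at h1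
    exact (mem_support_iff.mp ht) h1.symm
  set r := h.rootMultiplicity 1 with hr
  have hrle : r ≤ h.natDegree := by
    rw [hr, ← Polynomial.count_roots]
    exact (Multiset.count_le_card _ _).trans (Polynomial.card_roots' _)
  obtain ⟨s0, hs0G, hs0W, hs01⟩ := exists_of_top_coeff_ne G W h.natDegree (by
    rw [← hh, Polynomial.coeff_natDegree]
    exact Polynomial.leadingCoeff_ne_zero.mpr hne)
  have hr0 : r ≤ s0 1 := by rw [hs01]; exact hrle
  have hcoeff := top_coeff hf hg G W htmax r s0 hs0W hr0
  have hval : (Polynomial.derivative^[r] (top f g G W)).eval 1 ≠ 0 := by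
    rw [← hh, hr, Polynomial.eval_iterate_derivative_rootMultiplicity, nsmul_eq_mul]
    refine mul_ne_zero ?_ (Polynomial.eval_divByMonic_pow_rootMultiplicity_ne_zero 1 hne)
    exact_mod_cast Nat.factorial_ne_zero _
  rw [← hcoeff] at hval
  have hev : aeval ![f, g] ((dY ^ r) G) ≠ 0 := by
    intro h0
    rw [h0, coeff_zero] at hval
    exact hval rfl
  have hdeg1 : mo.toSyn (E f g (s0 0) (s0 1 - r)) ≤ dg (aeval ![f, g] ((dY ^ r) G)) :=
    mo.le_degree (mem_support_iff.mpr hval)
  obtain ⟨hev0, hdeg2⟩ := dg_iter hJ G r hev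
  refine ⟨hev0, ?_⟩
  set δ := dg (aeval ![f, g] G) with hδ
  have hWs0 : mo.toSyn (E f g (s0 0) (s0 1 - r)) + r • dg g = W := by
    rw [toSyn_E, add_assoc, ← add_nsmul, Nat.sub_add_cancel hr0, ← hs0W]
    rfl
  have hWle : W ≤ δ + r • dg f + r • dg g := by
    rw [← hWs0]
    exact add_le_add_left (hdeg1.trans hdeg2) _
  rcases Nat.eq_zero_or_pos r with hr00 | hrpos
  · -- no cancellation
    rw [hr00, zero_nsmul, zero_nsmul, add_zero, add_zero] at hWle
    have h1 : dg g ≤ W := by
      refine le_trans ?_ (htmax sG hsG)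
      show dg g ≤ sG 0 • dg f + sG 1 • dg g
      have h2 : 1 • dg g ≤ sG 1 • dg g := nsmul_le_nsmul_left hm.le hsG1
      rw [one_nsmul] at h2
      exact h2.trans (le_add_of_nonneg_left (nsmul_nonneg hn.le _))
    have h3 : δ ≤ 3 • δ := by
      have : 1 • δ ≤ 3 • δ := nsmul_le_nsmul_left (dg_nonneg _) (by norm_num)
      rwa [one_nsmul] at this
    exact h1.trans (hWle.trans h3)
  · -- cancellation: dependent case
    have hroot : h.eval 1 = 0 := by
      have : h.IsRoot 1 := (Polynomial.rootMultiplicity_pos hne).mp hrpos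
      exact this
    -- differences
    have hdiff : ∀ s ∈ G.support, ∀ s' ∈ G.support, wt f g s = W → wt f g s' = W → s 1 ≤ s' 1 →
        ∃ a : ℕ, (s' 1 - s 1) • dg g = a • dg f := by
      intro s _ s' _ hs hs' hss
      have h1 : s 0 • dg f = s' 0 • dg f + (s' 1 - s 1) • dg g := by
        have h2 : s 0 • dg f + s 1 • dg g = s' 0 • dg f + s' 1 • dg g := hs.trans hs'.symm
        have h3 : s' 1 • dg g = (s' 1 - s 1) • dg g + s 1 • dg g := by
          rw [← add_nsmul, Nat.sub_add_cancel hss]
        rw [h3, ← add_assoc] at h2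
        exact add_right_cancel h2
      have h4 : s' 0 ≤ s 0 := by
        by_contra hcon
        rw [not_le] at hcon
        have h5 := nsmul_lt_nsmul_left hn hcon
        rw [h1] at h5
        exact absurd h5 (not_lt.mpr (le_add_of_nonneg_right (nsmul_nonneg hm.le _)))
      refine ⟨s 0 - s' 0, ?_⟩
      have h6 : s 0 • dg f = s' 0 • dg f + (s 0 - s' 0) • dg f := by
        rw [← add_nsmul]; congr 1; omega
      rw [h6] at h1
      exact (add_left_cancel h1).symm
    -- two different exponents
    have hex : ∃ b : ℕ, 1 ≤ b ∧ ∃ a : ℕ, b • dg g = a • dg f := by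
      by_contra hcon
      push Not at hcon
      have hall : ∀ s ∈ G.support, wt f g s = W → s 1 = t 1 := by
        intro s hs hsW
        rcases lt_trichotomy (s 1) (t 1) with hlt | heq | hgt
        · obtain ⟨a, ha⟩ := hdiff s hs t ht hsW rfl hlt.le
          exact absurd ha (hcon (t 1 - s 1) (by omega) a)
        · exact heq
        · obtain ⟨a, ha⟩ := hdiff t ht s hs rfl hsW hgt.le
          exact absurd ha (hcon (s 1 - t 1) (by omega) a)
      have hh1 : h = Polynomial.C (coeff t G) * Polynomial.X ^ (t 1) := by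
        ext j
        rw [Polynomial.coeff_C_mul, Polynomial.coeff_X_pow]
        by_cases hj : j = t 1
        · rw [if_pos hj, mul_one, hj, hh]
          exact top_coeff_at G W hn t rfl
        · rw [if_neg hj, mul_zero]
          by_contra hc
          obtain ⟨s, hs, hsW, hsj⟩ := exists_of_top_coeff_ne G W j hc
          exact hj (hsj.symm.trans (hall s hs hsW))
      rw [hh1] at hroot
      simp at hroot
      exact (mem_support_iff.mp ht) hroot
    obtain ⟨hb1, a, hab⟩ := Nat.find_spec hex
    set b := Nat.find hex with hbdef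
    have hbmin : ∀ k, 1 ≤ k → (∃ a : ℕ, k • dg g = a • dg f) → b ≤ k := fun k hk hk' =>
      Nat.find_min' hex ⟨hk, hk'⟩
    have hbdvd : ∀ k, (∃ a : ℕ, k • dg g = a • dg f) → b ∣ k := by
      rintro k ⟨a', ha'⟩
      rw [Nat.dvd_iff_mod_eq_zero]
      by_contra hmod
      have hk : k = (k % b) + b * (k / b) := (Nat.mod_add_div k b).symm
      have h1 : (k % b) • dg g + ((k / b) * a) • dg f = a' • dg f := by
        rw [← ha']
        conv_rhs => rw [hk]
        rw [add_nsmul]
        congr 1
        rw [mul_comm b, mul_nsmul', mul_nsmul', hab]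
      have h2 : (k / b) * a ≤ a' := by
        by_contra hcon
        rw [not_le] at hcon
        have h5 := nsmul_lt_nsmul_left hn hcon
        rw [← h1] at h5
        exact absurd h5 (not_lt.mpr (le_add_of_nonneg_left (nsmul_nonneg hm.le _)))
      have h3 : (k % b) • dg g = (a' - (k / b) * a) • dg f := by
        have h6 : a' • dg f = (a' - (k / b) * a) • dg f + ((k / b) * a) • dg f := by
          rw [← add_nsmul, Nat.sub_add_cancel h2]
        rw [h6] at h1
        exact add_right_cancel h1
      have h4 := hbmin (k % b) (Nat.one_le_iff_ne_zero.mpr hmod) ⟨_, h3⟩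
      exact absurd (Nat.mod_lt k (by omega)) (not_lt.mpr h4)
    -- b ≥ 2 and b < a
    have hb2 : 2 ≤ b := by
      by_contra hcon
      have : b = 1 := by omega
      rw [this, one_nsmul] at hab
      exact hred a hab
    have hba : b < a := by
      by_contra hcon
      rw [not_lt] at hcon
      have h1 : a • dg f ≤ b • dg f := nsmul_le_nsmul_left hn.le hcon
      have h2 : b • dg f ≤ b • dg g := nsmul_le_nsmul_right hle b
      have h3 : b • dg f = b • dg g := le_antisymm h2 (hab.le.trans h1)
      have h4 : dg g = dg f := by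
        rcases lt_or_eq_of_le hle with hlt | heq
        · exact absurd h3 (nsmul_lt_nsmul_right (by omega) hlt).ne
        · exact heq.symm
      exact hred 1 (by rw [one_nsmul]; exact h4)
    -- the minimal exponent
    obtain ⟨c, hcT, hcmin⟩ := Finset.exists_min_image
      (G.support.filter (fun s => wt f g s = W)) (fun s => s 1)
      ⟨t, by rw [Finset.mem_filter]; exact ⟨ht, rfl⟩⟩
    rw [Finset.mem_filter] at hcT
    set H : Polynomial K := ∑ s ∈ G.support.filter (fun s => wt f g s = W),
      Polynomial.C (coeff s G) * Polynomial.X ^ ((s 1 - c 1) / b) with hH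
    have hhH : h = Polynomial.X ^ (c 1) * Polynomial.expand K b H := by
      rw [hH, map_sum, Finset.mul_sum, hh]
      unfold top
      apply Finset.sum_congr rfl
      intro s hs
      rw [map_mul, Polynomial.expand_C, map_pow, Polynomial.expand_X]
      have hsT := hs
      rw [Finset.mem_filter] at hs
      have h1 : c 1 ≤ s 1 := hcmin s hsT
      have h2 : b ∣ s 1 - c 1 := hbdvd _ (hdiff c hcT.1 s hs.1 hcT.2 hs.2 h1)
      have h3 : s 1 = c 1 + b * ((s 1 - c 1) / b) := by
        rw [Nat.mul_div_cancel' h2]; omega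
      conv_lhs => rw [h3]
      rw [pow_add, ← pow_mul]
      ring
    have hHne : H ≠ 0 := by
      intro h0
      rw [h0, map_zero, mul_zero] at hhH
      exact hne hhH
    have hrb : r * b ≤ h.natDegree := by
      rw [hr, hhH]
      exact rootMult_expand H (c 1) b (by omega) hHne
    have hWge : (r * b) • dg g ≤ W := by
      rw [← hs0W]
      show (r * b) • dg g ≤ s0 0 • dg f + s0 1 • dg g
      have h2 : (r * b) • dg g ≤ s0 1 • dg g := nsmul_le_nsmul_left hm.le (by rw [hs01]; exact hrb)
      exact h2.trans (le_add_of_nonneg_left (nsmul_nonneg hn.le _))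
    exact arith (dg f) (dg g) δ hm.le a b r hab hb2 hba hrpos (hWge.trans hWle)

end Pool.Agent.Helper55.SI
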