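import Mathlib
import Pool.Agent.helper55.SIDefs
import Pool.Agent.helper55.SIDeg

set_option autoImplicit false

/-!
The stable image of an injective endomorphism of `K[x, y]` is a retract.
-/

namespace Pool.Agent.Helper55.SI

open MvPolynomial

variable {K : Type*} [Field K]

lemma adjoin_pair (f g : MvPolynomial (Fin 2) K) :
    Algebra.adjoin K {f, g} = (aeval ![f, g] : MvPolynomial (Fin 2) K →ₐ[K] _).range := by
  rw [← Algebra.adjoin_range_eq_range_aeval, Matrix.range_cons_cons_empty]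

/-- a generating pair of an isomorphic copy of the polynomial ring is algebraically independent -/
lemma algIndep_of_adjoin (ψ : MvPolynomial (Fin 2) K →ₐ[K] MvPolynomial (Fin 2) K)
    (hψ : Function.Injective ψ) (f g : MvPolynomial (Fin 2) K)
    (h : Algebra.adjoin K {f, g} = ψ.range) : AlgebraicIndependent K ![f, g] := by
  rw [adjoin_pair] at h
  let e := AlgEquiv.ofInjective ψ hψ
  let a : MvPolynomial (Fin 2) K →ₐ[K] ψ.range :=
    (aeval ![f, g]).codRestrict ψ.range (fun x => by rw [← h]; exact ⟨x, rfl⟩)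
  let θ : MvPolynomial (Fin 2) K →ₐ[K] MvPolynomial (Fin 2) K :=
    (e.symm : ψ.range →ₐ[K] MvPolynomial (Fin 2) K).comp a
  have ha : Function.Surjective a := by
    rintro ⟨x, hx⟩
    have hx' := hx
    rw [← h] at hx'
    obtain ⟨y, hy⟩ := hx'
    exact ⟨y, Subtype.ext hy⟩
  have hθ : Function.Surjective θ := e.symm.surjective.comp ha
  obtain ⟨k0, hk0⟩ := exists_inj θ
  have htop : ∀ k, ∀ x, x ∈ B θ k := by
    intro k
    induction k with
    | zero => intro x; exact ⟨x, rfl⟩
    | succ k ih =>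
      intro x
      obtain ⟨y, hy⟩ := hθ x
      obtain ⟨z, hz⟩ := ih y
      refine ⟨z, ?_⟩
      show (θ ^ (k + 1)) z = x
      rw [pow_succ_apply, ← hy]
      congr 1
  have hinj : ∀ x, θ x = 0 → x = 0 := fun x hx => hk0 k0 le_rfl x (htop k0 x) hx
  unfold AlgebraicIndependent
  rw [injective_iff_map_eq_zero]
  intro x hx
  apply hinj
  show e.symm (a x) = 0
  have : a x = 0 := Subtype.ext hx
  rw [this, map_zero]

lemma dg_C_mul {c : K} (hc : c ≠ 0) (f : MvPolynomial (Fin 2) K) : dg (C c * f) = dg f := by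
  by_cases hf : f = 0
  · rw [hf, mul_zero]
  · rw [dg_mul (C_ne_zero.mpr hc) hf]
    have : dg (C c : MvPolynomial (Fin 2) K) = 0 := by
      unfold dg; rw [mo.degree_C, map_zero]
    rw [this, zero_add]

lemma monic_scale {f : MvPolynomial (Fin 2) K} (hf : f ≠ 0) :
    mo.Monic (C (mo.leadingCoeff f)⁻¹ * f) := by
  have h : mo.leadingCoeff f ≠ 0 := mo.leadingCoeff_ne_zero_iff.mpr hf
  have hne : C (mo.leadingCoeff f)⁻¹ * f ≠ 0 := mul_ne_zero (C_ne_zero.mpr (inv_ne_zero h)) hf
  have hd : mo.degree (C (mo.leadingCoeff f)⁻¹ * f) = mo.degree f := by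
    have := dg_C_mul (inv_ne_zero h) f
    exact mo.toSyn.injective this
  show coeff (mo.degree (C (mo.leadingCoeff f)⁻¹ * f)) (C (mo.leadingCoeff f)⁻¹ * f) = 1
  rw [hd, coeff_C_mul]
  exact inv_mul_cancel₀ h

lemma adj_le {f g f' g' : MvPolynomial (Fin 2) K} (h1 : f ∈ Algebra.adjoin K {f', g'})
    (h2 : g ∈ Algebra.adjoin K {f', g'}) :
    Algebra.adjoin K {f, g} ≤ Algebra.adjoin K {f', g'} := by
  rw [Algebra.adjoin_le_iff]
  rintro x (rfl | rfl)
  · exact h1
  · exact h2

lemma mem_adj_left (f g : MvPolynomial (Fin 2) K) : f ∈ Algebra.adjoin K {f, g} :=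
  Algebra.subset_adjoin (Or.inl rfl)

lemma mem_adj_right (f g : MvPolynomial (Fin 2) K) : g ∈ Algebra.adjoin K {f, g} :=
  Algebra.subset_adjoin (Or.inr rfl)

lemma adj_scale {a b : K} (ha : a ≠ 0) (hb : b ≠ 0) (f g : MvPolynomial (Fin 2) K) :
    Algebra.adjoin K {C a * f, C b * g} = Algebra.adjoin K {f, g} := by
  apply le_antisymm
  · apply adj_le
    · exact mul_mem (Subalgebra.algebraMap_mem _ a) (mem_adj_left f g)
    · exact mul_mem (Subalgebra.algebraMap_mem _ b) (mem_adj_right f g)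
  · apply adj_le
    · have h : C a⁻¹ * (C a * f) = f := by
        rw [← mul_assoc, ← C_mul, inv_mul_cancel₀ ha, C_1, one_mul]
      have h1 : C a⁻¹ * (C a * f) ∈ Algebra.adjoin K {C a * f, C b * g} :=
        mul_mem (Subalgebra.algebraMap_mem (Algebra.adjoin K {C a * f, C b * g}) a⁻¹)
        (mem_adj_left (C a * f) (C b * g))
      rwa [h] at h1
    · have h : C b⁻¹ * (C b * g) = g := by
        rw [← mul_assoc, ← C_mul, inv_mul_cancel₀ hb, C_1, one_mul]
      have h1 : C b⁻¹ * (C b * g) ∈ Algebra.adjoin K {C a * f, C b * g} :=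
        mul_mem (Subalgebra.algebraMap_mem (Algebra.adjoin K {C a * f, C b * g}) b⁻¹)
        (mem_adj_right (C a * f) (C b * g))
      rwa [h] at h1

lemma adj_sub (f g : MvPolynomial (Fin 2) K) (a : ℕ) :
    Algebra.adjoin K {f, g - f ^ a} = Algebra.adjoin K {f, g} := by
  apply le_antisymm
  · apply adj_le
    · exact mem_adj_left f g
    · exact sub_mem (mem_adj_right f g) (pow_mem (mem_adj_left f g) a)
  · apply adj_le
    · exact mem_adj_left _ _
    · have h : g = (g - f ^ a) + f ^ a := by ring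
      have h1 := add_mem (mem_adj_right f (g - f ^ a)) (pow_mem (mem_adj_left f (g - f ^ a)) a)
      rwa [← h] at h1

lemma dg_sub_lt {f g : MvPolynomial (Fin 2) K} (hf : mo.Monic f) (hg : mo.Monic g) (a : ℕ)
    (h : dg g = a • dg f) (hne : g - f ^ a ≠ 0) : dg (g - f ^ a) < dg g := by
  have hdeg : mo.degree (f ^ a) = mo.degree g := by
    apply mo.toSyn.injective
    rw [mo.degree_pow, map_nsmul]
    exact h.symm
  have h1 : dg (f ^ a) = dg g := by unfold dg; rw [hdeg]
  have hle : dg (g - f ^ a) ≤ dg g := by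
    refine (dg_sub_le _ _).trans ?_
    rw [h1, max_self]
  refine lt_of_le_of_ne hle ?_
  intro heq
  have hd : mo.degree (g - f ^ a) = mo.degree g := mo.toSyn.injective heq
  have h2 : coeff (mo.degree (g - f ^ a)) (g - f ^ a) ≠ 0 := mo.coeff_degree_ne_zero_iff.mpr hne
  apply h2
  rw [hd, coeff_sub, hg.coeff_degree, ← hdeg]
  have : mo.Monic (f ^ a) := hf.pow
  rw [this.coeff_degree, sub_self]

/-- a good generating pair -/
structure Good (S : Subalgebra K (MvPolynomial (Fin 2) K)) (f g : MvPolynomial (Fin 2) K) :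
    Prop where
  adj : Algebra.adjoin K {f, g} = S
  mf : mo.Monic f
  mg : mo.Monic g
  pos : 0 < dg f
  le : dg f ≤ dg g
  red : ∀ a : ℕ, dg g ≠ a • dg f
  jac : J f g ≠ 0
  ind : AlgebraicIndependent K ![f, g]

lemma exists_good [CharZero K] (ψ : MvPolynomial (Fin 2) K →ₐ[K] MvPolynomial (Fin 2) K)
    (hψ : Function.Injective ψ) : ∃ f g, Good ψ.range f g := by
  -- a minimal pair
  let S : Set (MvPolynomial (Fin 2) K × MvPolynomial (Fin 2) K) :=
    {q | Algebra.adjoin K {q.1, q.2} = ψ.range}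
  have hS : S.Nonempty := by
    refine ⟨(ψ (X 0), ψ (X 1)), ?_⟩
    show Algebra.adjoin K {ψ (X 0), ψ (X 1)} = ψ.range
    rw [adjoin_pair]
    congr 1
    apply MvPolynomial.algHom_ext
    intro i
    rw [aeval_X]
    fin_cases i <;> rfl
  obtain ⟨q, hq, hmin⟩ := (InvImage.wf
    (fun q : MvPolynomial (Fin 2) K × MvPolynomial (Fin 2) K => dg q.1 + dg q.2)
    (wellFounded_lt (α := mo.syn))).has_min S hS
  have hmin' : ∀ f g : MvPolynomial (Fin 2) K, Algebra.adjoin K {f, g} = ψ.range →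
      dg q.1 + dg q.2 ≤ dg f + dg g := fun f g h => not_lt.mp (hmin (f, g) h)
  -- order the pair
  obtain ⟨f, g, hfg, hle, hmin2⟩ : ∃ f g : MvPolynomial (Fin 2) K,
      Algebra.adjoin K {f, g} = ψ.range ∧ dg f ≤ dg g ∧
      ∀ f' g' : MvPolynomial (Fin 2) K, Algebra.adjoin K {f', g'} = ψ.range →
      dg f + dg g ≤ dg f' + dg g' := by
    rcases le_total (dg q.1) (dg q.2) with h | h
    · exact ⟨q.1, q.2, hq, h, hmin'⟩
    · refine ⟨q.2, q.1, by rw [Set.pair_comm]; exact hq, h, fun f' g' h' => ?_⟩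
      rw [add_comm (dg q.2)]
      exact hmin' f' g' h'
  have hind := algIndep_of_adjoin ψ hψ f g hfg
  have hf0 : f ≠ 0 := fun h => hind.ne_zero 0 h
  have hg0 : g ≠ 0 := fun h => hind.ne_zero 1 h
  have hcf : (mo.leadingCoeff f)⁻¹ ≠ 0 := inv_ne_zero (mo.leadingCoeff_ne_zero_iff.mpr hf0)
  have hcg : (mo.leadingCoeff g)⁻¹ ≠ 0 := inv_ne_zero (mo.leadingCoeff_ne_zero_iff.mpr hg0)
  set f1 := C (mo.leadingCoeff f)⁻¹ * f with hf1
  set g1 := C (mo.leadingCoeff g)⁻¹ * g with hg1
  have hadj : Algebra.adjoin K {f1, g1} = ψ.range := by rw [hf1, hg1, adj_scale hcf hcg, hfg]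
  have hdf : dg f1 = dg f := dg_C_mul hcf f
  have hdg : dg g1 = dg g := dg_C_mul hcg g
  have hind1 := algIndep_of_adjoin ψ hψ f1 g1 hadj
  have hJ : J f1 g1 ≠ 0 := J_ne_zero f1 g1 hind1
  refine ⟨f1, g1, hadj, monic_scale hf0, monic_scale hg0, ?_, ?_, ?_, hJ, hind1⟩
  · rw [lt_iff_le_and_ne]
    refine ⟨dg_nonneg _, fun h0 => hJ ?_⟩
    have hd0 : mo.degree f1 = 0 := by
      apply mo.toSyn.injective
      rw [map_zero]; exact h0.symm
    rw [mo.eq_C_of_degree_eq_zero hd0, J_apply]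
    simp
  · rw [hdf, hdg]; exact hle
  · intro a ha
    have hne : g1 - f1 ^ a ≠ 0 := by
      intro h0
      have h1 := algIndep_of_adjoin ψ hψ f1 (g1 - f1 ^ a) (by rw [adj_sub, hadj])
      exact h1.ne_zero 1 h0
    have hlt := dg_sub_lt (monic_scale hf0) (monic_scale hg0) a ha hne
    have h2 := hmin2 f1 (g1 - f1 ^ a) (by rw [adj_sub, hadj])
    rw [← hdf, ← hdg] at h2
    exact absurd h2 (not_le.mpr (add_lt_add_of_le_of_lt le_rfl hlt))

/-- degree of a polynomial in `f` -/
lemma dg_aeval {f : MvPolynomial (Fin 2) K} (hf : mo.Monic f) (hpos : 0 < dg f)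
    (Q : Polynomial K) (hQ : Q ≠ 0) :
    Polynomial.aeval f Q ≠ 0 ∧ dg (Polynomial.aeval f Q) = Q.natDegree • dg f := by
  have hf0 : f ≠ 0 := hf.ne_zero
  induction hd : Q.natDegree using Nat.strong_induction_on generalizing Q with
  | _ d ih =>
    have hlead : dg (C Q.leadingCoeff * f ^ d) = d • dg f := by
      rw [dg_C_mul (Polynomial.leadingCoeff_ne_zero.mpr hQ)]
      unfold dg
      rw [mo.degree_pow, map_nsmul]
    have hlead0 : C Q.leadingCoeff * f ^ d ≠ 0 :=
      mul_ne_zero (C_ne_zero.mpr (Polynomial.leadingCoeff_ne_zero.mpr hQ)) (pow_ne_zero _ hf0)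
    have hsplit : Polynomial.aeval f Q =
        C Q.leadingCoeff * f ^ d + Polynomial.aeval f Q.eraseLead := by
      conv_lhs => rw [← Polynomial.eraseLead_add_C_mul_X_pow Q]
      rw [map_add, map_mul, map_pow, Polynomial.aeval_X, Polynomial.aeval_C, hd, add_comm]
      rfl
    by_cases he : Q.eraseLead = 0
    · rw [hsplit, he, map_zero, add_zero]
      exact ⟨hlead0, hlead⟩
    · have hlt : Q.eraseLead.natDegree < d := by
        rw [← hd]
        rcases Polynomial.eraseLead_natDegree_lt_or_eraseLead_eq_zero Q with h | h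
        · exact h
        · exact absurd h he
      obtain ⟨h1, h2⟩ := ih _ hlt Q.eraseLead he rfl
      have hlt2 : dg (Polynomial.aeval f Q.eraseLead) < dg (C Q.leadingCoeff * f ^ d) := by
        rw [h2, hlead]
        exact nsmul_lt_nsmul_left hpos hlt
      have hdeg : mo.degree (C Q.leadingCoeff * f ^ d + Polynomial.aeval f Q.eraseLead) =
          mo.degree (C Q.leadingCoeff * f ^ d) := mo.degree_add_of_lt hlt2
      refine ⟨?_, ?_⟩
      · intro h0
        rw [hsplit] at h0
        have h3 : C Q.leadingCoeff * f ^ d = - Polynomial.aeval f Q.eraseLead :=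
          eq_neg_of_add_eq_zero_left h0
        have h4 : dg (C Q.leadingCoeff * f ^ d) = dg (Polynomial.aeval f Q.eraseLead) := by
          rw [h3]; unfold dg; rw [mo.degree_neg]
        exact absurd h4 hlt2.ne'
      · rw [hsplit]
        unfold dg at hlead ⊢
        rw [hdeg, hlead]

end Pool.Agent.Helper55.SI
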