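import Mathlib
import Pool.Agent.helper55.SIInj

set_option autoImplicit false

/-!
The stable image of an injective endomorphism of `K[x, y]` is a retract.
-/

namespace Pool.Agent.Helper55.SI

open MvPolynomial

variable {K : Type*} [Field K]

lemma totalDegree_le_of_dg {p q : MvPolynomial (Fin 2) K} (h : dg p ≤ dg q) :
    p.totalDegree ≤ q.totalDegree := MvPolynomial.degLex_totalDegree_monotone h

lemma pow_injective (φ : MvPolynomial (Fin 2) K →ₐ[K] MvPolynomial (Fin 2) K)
    (hφ : Function.Injective φ) (k : ℕ) : Function.Injective (φ ^ k) := by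
  induction k with
  | zero => exact Function.injective_id
  | succ k ih =>
    rw [pow_succ']
    exact hφ.comp ih

/-- the projection from a polynomial subalgebra `K[f, g]` -/
lemma exists_proj (φ : MvPolynomial (Fin 2) K →ₐ[K] MvPolynomial (Fin 2) K)
    (f g : MvPolynomial (Fin 2) K) (k : ℕ) (hadj : Algebra.adjoin K {f, g} = B φ k)
    (hind : AlgebraicIndependent K ![f, g]) (hf : f ∈ stableImage φ)
    (hR : stableImage φ ≤ Algebra.adjoin K {f}) :
    ∃ ε : B φ k →ₐ[K] stableImage φ,
      ∀ r : stableImage φ, ε ⟨r.1, stable_le φ k r.2⟩ = r := by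
  let a : MvPolynomial (Fin 2) K →ₐ[K] MvPolynomial (Fin 2) K := aeval ![f, g]
  have ha : Function.Injective a := hind
  have hrange : B φ k = a.range := by rw [← hadj, adjoin_pair]
  let e := AlgEquiv.ofInjective a ha
  let i : B φ k →ₐ[K] a.range := Subalgebra.inclusion hrange.le
  let ε0 : B φ k →ₐ[K] MvPolynomial (Fin 2) K :=
    (aeval ![f, 0] : MvPolynomial (Fin 2) K →ₐ[K] MvPolynomial (Fin 2) K).comp
      ((e.symm : a.range →ₐ[K] MvPolynomial (Fin 2) K).comp i)
  have hε0 : ∀ x, ε0 x ∈ stableImage φ := by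
    intro x
    have h1 : ε0 x ∈ (aeval ![f, 0] : MvPolynomial (Fin 2) K →ₐ[K] MvPolynomial (Fin 2) K).range :=
      ⟨_, rfl⟩
    rw [← adjoin_pair] at h1
    have h2 : Algebra.adjoin K {f, (0 : MvPolynomial (Fin 2) K)} ≤ stableImage φ := by
      rw [Algebra.adjoin_le_iff]
      rintro y (rfl | rfl)
      · exact hf
      · exact zero_mem _
    exact h2 h1
  refine ⟨ε0.codRestrict _ hε0, fun r => ?_⟩
  apply Subtype.ext
  show ε0 ⟨r.1, stable_le φ k r.2⟩ = r.1
  have hr := hR r.2
  rw [Algebra.adjoin_singleton_eq_range_aeval] at hr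
  obtain ⟨Q, hQ⟩ := hr
  have hQ' : Polynomial.aeval f Q = r.1 := hQ
  have h3 : e.symm (i ⟨r.1, stable_le φ k r.2⟩) = Polynomial.aeval (X 0) Q := by
    rw [AlgEquiv.symm_apply_eq]
    apply Subtype.ext
    show r.1 = a (Polynomial.aeval (X 0) Q)
    rw [← Polynomial.aeval_algHom_apply]
    show r.1 = Polynomial.aeval (aeval ![f, g] (X 0 : MvPolynomial (Fin 2) K)) Q
    rw [aeval_X]
    exact hQ'.symm
  show aeval ![f, 0] (e.symm (i ⟨r.1, stable_le φ k r.2⟩)) = r.1
  rw [h3, ← Polynomial.aeval_algHom_apply, aeval_X]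
  exact hQ'

theorem retract_of_injective [CharZero K]
    (φ : MvPolynomial (Fin 2) K →ₐ[K] MvPolynomial (Fin 2) K)
    (hφ : Function.Injective φ) : IsRetract (stableImage φ) := by
  classical
  by_cases hstab : ∃ k, B φ (k + 1) = B φ k
  · obtain ⟨k, hk⟩ := hstab
    exact retract_of_stab φ k hk
  have hg := fun k => exists_good (φ ^ k) (pow_injective φ hφ k)
  choose F G hgood using hg
  have hadj : ∀ k, Algebra.adjoin K {F k, G k} = B φ k := fun k => (hgood k).adj
  have hFB : ∀ k, F k ∈ B φ k := fun k => by rw [← hadj k]; exact mem_adj_left _ _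
  have hGB : ∀ k, G k ∈ B φ k := fun k => by rw [← hadj k]; exact mem_adj_right _ _
  -- the second generator has large degree
  have hbig : ∀ q : MvPolynomial (Fin 2) K, ∃ N, ∀ k, N ≤ k → dg q < dg (G k) := by
    intro q
    by_contra hcon
    push Not at hcon
    apply hstab
    apply stab_of_finite φ (restrictTotalDegree (Fin 2) K q.totalDegree)
    intro N
    obtain ⟨k, hk, hle⟩ := hcon N
    refine ⟨k, hk, ?_⟩
    conv_lhs => rw [← hadj k]
    rw [Algebra.adjoin_le_iff]
    have hGV : G k ∈ restrictTotalDegree (Fin 2) K q.totalDegree := by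
      rw [mem_restrictTotalDegree]; exact totalDegree_le_of_dg hle
    have hFV : F k ∈ restrictTotalDegree (Fin 2) K q.totalDegree := by
      rw [mem_restrictTotalDegree]; exact totalDegree_le_of_dg ((hgood k).le.trans hle)
    rintro x (rfl | rfl)
    · exact Algebra.subset_adjoin ⟨hFB k, hFV⟩
    · exact Algebra.subset_adjoin ⟨hGB k, hGV⟩
  -- elements of the stable image are polynomials in F k
  have hin : ∀ p ∈ stableImage φ, ∃ N, ∀ k, N ≤ k → p ∈ Algebra.adjoin K {F k} := by
    intro p hp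
    by_cases hp0 : p = 0
    · exact ⟨0, fun k _ => by rw [hp0]; exact zero_mem _⟩
    obtain ⟨N, hN⟩ := hbig (p ^ 3)
    refine ⟨N, fun k hk => ?_⟩
    have hpB := (mem_stable_iff φ p).mp hp k
    rw [← hadj k, adjoin_pair] at hpB
    obtain ⟨H, hH⟩ := hpB
    have hH' : aeval ![F k, G k] H = p := hH
    have hs : ∀ s ∈ H.support, s 1 = 0 := by
      intro s hs
      by_contra hne
      have h1 := degree_estimate (hgood k).mf (hgood k).mg (hgood k).pos (hgood k).le
        (hgood k).red (hgood k).jac H ⟨s, hs, Nat.one_le_iff_ne_zero.mpr hne⟩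
      rw [hH'] at h1
      have h2 : dg (p ^ 3) = 3 • dg p := by
        unfold dg; rw [mo.degree_pow, map_nsmul]
      have h3 := hN k hk
      rw [h2] at h3
      exact absurd h1.2 (not_le.mpr h3)
    rw [← hH', ← support_sum_monomial_coeff H, map_sum]
    apply sum_mem
    intro s hs'
    rw [aeval_monomial', hs s hs', pow_zero, mul_one]
    exact mul_mem (Subalgebra.algebraMap_mem _ _)
      (pow_mem (Algebra.subset_adjoin (Set.mem_singleton _)) _)
  -- trivial case
  by_cases hbot : ∀ p ∈ stableImage φ, dg p = 0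
  · apply retract_of_eq_bot φ (aeval (fun _ => (0 : K)))
    rw [eq_bot_iff]
    intro p hp
    have h1 : mo.degree p = 0 := by
      apply mo.toSyn.injective
      rw [map_zero]; exact hbot p hp
    rw [mo.eq_C_of_degree_eq_zero h1]
    exact Subalgebra.algebraMap_mem _ _
  push Not at hbot
  obtain ⟨p1, hp1, hp1'⟩ := hbot
  -- an element of minimal positive degree
  obtain ⟨p0, ⟨hp0R, hp0pos⟩, hp0min⟩ := (InvImage.wf
    (fun q : MvPolynomial (Fin 2) K => dg q)
    (wellFounded_lt (α := mo.syn))).has_min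
    {q : MvPolynomial (Fin 2) K | q ∈ stableImage φ ∧ 0 < dg q}
    ⟨p1, hp1, lt_of_le_of_ne (dg_nonneg _) (Ne.symm hp1')⟩
  have hmin : ∀ q ∈ stableImage φ, 0 < dg q → dg p0 ≤ dg q :=
    fun q hq hq' => not_lt.mp (hp0min q ⟨hq, hq'⟩)
  obtain ⟨N1, hN1⟩ := eventually_mem φ (restrictTotalDegree (Fin 2) K p0.totalDegree)
  obtain ⟨N2, hN2⟩ := hin p0 hp0R
  have hA : ∀ k, max N1 N2 ≤ k → F k ∈ stableImage φ ∧ dg (F k) = dg p0 := by
    intro k hk
    have h1 := hN2 k ((le_max_right _ _).trans hk)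
    rw [Algebra.adjoin_singleton_eq_range_aeval] at h1
    obtain ⟨Q, hQ⟩ := h1
    have hQ' : Polynomial.aeval (F k) Q = p0 := hQ
    have hQ0 : Q ≠ 0 := by
      intro h0
      rw [h0, map_zero] at hQ'
      rw [← hQ'] at hp0pos
      unfold dg at hp0pos
      rw [mo.degree_zero, map_zero] at hp0pos
      exact lt_irrefl _ hp0pos
    have h2 := (dg_aeval (hgood k).mf (hgood k).pos Q hQ0).2
    rw [hQ'] at h2
    have h3 : 1 ≤ Q.natDegree := by
      rw [Nat.one_le_iff_ne_zero]
      intro h0
      rw [h0, zero_nsmul] at h2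
      exact hp0pos.ne' h2
    have h4 : dg (F k) ≤ dg p0 := by
      rw [h2]
      have : 1 • dg (F k) ≤ Q.natDegree • dg (F k) := nsmul_le_nsmul_left (dg_nonneg _) h3
      rwa [one_nsmul] at this
    have h5 : F k ∈ stableImage φ := by
      apply hN1 k ((le_max_left _ _).trans hk) _ (hFB k)
      rw [mem_restrictTotalDegree]
      exact totalDegree_le_of_dg h4
    exact ⟨h5, le_antisymm h4 (hmin _ h5 (hgood k).pos)⟩
  set k1 := max N1 N2 with hk1
  obtain ⟨hfR, hfd⟩ := hA k1 le_rfl
  have hR : stableImage φ ≤ Algebra.adjoin K {F k1} := by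
    intro q hq
    obtain ⟨N3, hN3⟩ := hin q hq
    obtain ⟨N4, hN4⟩ := hin (F k1) hfR
    set k := max k1 (max N3 N4) with hk
    have hq1 := hN3 k ((le_max_left _ _).trans (le_max_right _ _))
    have hf1 := hN4 k ((le_max_right _ _).trans (le_max_right _ _))
    obtain ⟨_, hkd⟩ := hA k (le_max_left _ _)
    rw [Algebra.adjoin_singleton_eq_range_aeval] at hf1
    obtain ⟨Q, hQ⟩ := hf1
    have hQ' : Polynomial.aeval (F k) Q = F k1 := hQ
    have hQ0 : Q ≠ 0 := by
      intro h0
      rw [h0, map_zero] at hQ'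
      exact (hgood k1).mf.ne_zero hQ'.symm
    have h2 := (dg_aeval (hgood k).mf (hgood k).pos Q hQ0).2
    rw [hQ', hfd, hkd] at h2
    have h3 : Q.natDegree = 1 := by
      rcases lt_trichotomy Q.natDegree 1 with h | h | h
      · exfalso
        have h4 := nsmul_lt_nsmul_left hp0pos h
        rw [one_nsmul, ← h2] at h4
        exact lt_irrefl _ h4
      · exact h
      · exfalso
        have h4 := nsmul_lt_nsmul_left hp0pos h
        rw [one_nsmul, ← h2] at h4
        exact lt_irrefl _ h4
    rw [Polynomial.natDegree_eq_one] at h3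
    obtain ⟨a, ha, b, hab⟩ := h3
    have h5 : C a * F k + C b = F k1 := by
      rw [← hQ', ← hab, map_add, map_mul, Polynomial.aeval_C, Polynomial.aeval_X,
        Polynomial.aeval_C]
      rfl
    have h6 : F k = C a⁻¹ * (F k1 - C b) := by
      rw [← h5, add_sub_cancel_right, ← mul_assoc, ← C_mul, inv_mul_cancel₀ ha, C_1, one_mul]
    have h7 : F k ∈ Algebra.adjoin K {F k1} := by
      rw [h6]
      exact mul_mem (Subalgebra.algebraMap_mem _ _)
        (sub_mem (Algebra.subset_adjoin (Set.mem_singleton _)) (Subalgebra.algebraMap_mem _ _))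
    have h8 : Algebra.adjoin K {F k} ≤ Algebra.adjoin K {F k1} := by
      rw [Algebra.adjoin_le_iff]
      rintro x rfl
      exact h7
    exact h8 hq1
  obtain ⟨ε, hε⟩ := exists_proj φ (F k1) (G k1) k1 (hadj k1) (hgood k1).ind hfR hR
  exact retract_of_retract φ k1 ε hε

end Pool.Agent.Helper55.SI
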