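import Mathlib
import Pool.Agent.helper55.SIInj2

set_option autoImplicit false

/-!
The stable image of a non-injective endomorphism of `K[x, y]` is a retract.
-/

namespace Pool.Agent.Helper55.SI

open MvPolynomial

variable {K : Type*} [Field K]

lemma const_of_pderiv [CharZero K] {u : MvPolynomial (Fin 2) K} (h0 : pderiv 0 u = 0)
    (h1 : pderiv 1 u = 0) : ∃ c, u = C c := by
  refine ⟨coeff 0 u, ?_⟩
  ext s
  rw [coeff_C]
  by_cases hs : s = 0
  · subst hs; simp
  · rw [if_neg (Ne.symm hs)]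
    obtain ⟨i, hi⟩ : ∃ i, s i ≠ 0 := by
      by_contra hcon
      push Not at hcon
      exact hs (Finsupp.ext hcon)
    have hsi : s = (s - Finsupp.single i 1) + Finsupp.single i 1 := by
      ext j
      simp only [Finsupp.coe_add, Finsupp.coe_tsub, Pi.add_apply, Pi.sub_apply]
      by_cases hj : j = i
      · subst hj
        simp
        omega
      · rw [Finsupp.single_eq_of_ne hj]; omega
    have hpd : pderiv i u = 0 := by
      fin_cases i
      · exact h0
      · exact h1
    have hc := congrArg (coeff (s - Finsupp.single i 1)) hpd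
    rw [coeff_pderiv, ← hsi, coeff_zero] at hc
    have hne : ∀ k : ℕ, (k : K) + 1 ≠ 0 := by
      intro k
      exact_mod_cast Nat.succ_ne_zero k
    rcases mul_eq_zero.mp hc with h | h
    · exact h
    · exact absurd h (hne _)

lemma phi_eq_aeval (φ : MvPolynomial (Fin 2) K →ₐ[K] MvPolynomial (Fin 2) K)
    (G : MvPolynomial (Fin 2) K) : φ G = aeval ![φ (X 0), φ (X 1)] G := by
  have : φ = aeval ![φ (X 0), φ (X 1)] := by
    apply MvPolynomial.algHom_ext
    intro i
    rw [aeval_X]
    fin_cases i <;> rfl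
  conv_lhs => rw [this]

lemma dg_pderiv_lt (i : Fin 2) (G : MvPolynomial (Fin 2) K) (h : pderiv i G ≠ 0) :
    dg (pderiv i G) < dg G := by
  have h1 : dg (X i * pderiv i G) ≤ dg G := dg_le_of_support (support_X_mul_pderiv i G)
  rw [dg_mul (X_ne_zero _) h] at h1
  refine lt_of_lt_of_le ?_ h1
  apply lt_add_of_pos_left
  unfold dg
  rw [mo.degree_X]
  rw [lt_iff_le_and_ne]
  refine ⟨mo.zero_le _, ?_⟩
  intro h0
  have h2 : Finsupp.single i 1 = (0 : Fin 2 →₀ ℕ) := by
    apply mo.toSyn.injective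
    rw [map_zero]; exact h0.symm
  simp at h2

/-- If `φ` is not injective, the Jacobian vanishes. -/
lemma J_zero_of_noninj [CharZero K] (φ : MvPolynomial (Fin 2) K →ₐ[K] MvPolynomial (Fin 2) K)
    (hφ : ¬ Function.Injective φ) : J (φ (X 0)) (φ (X 1)) = 0 := by
  by_contra hJ
  rw [injective_iff_map_eq_zero] at hφ
  push Not at hφ
  obtain ⟨G0, hG0, hG0'⟩ := hφ
  obtain ⟨G, ⟨hG, hGne⟩, hmin⟩ := (InvImage.wf
    (fun q : MvPolynomial (Fin 2) K => dg q)
    (wellFounded_lt (α := mo.syn))).has_min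
    {q : MvPolynomial (Fin 2) K | φ q = 0 ∧ q ≠ 0} ⟨G0, hG0, hG0'⟩
  have hsmall : ∀ i, pderiv i G = 0 ∨ φ (pderiv i G) ≠ 0 := by
    intro i
    by_contra hcon
    push Not at hcon
    exact hmin (pderiv i G) ⟨hcon.2, hcon.1⟩ (dg_pderiv_lt i G hcon.1)
  have h1 : φ (pderiv 1 G) = 0 := by
    have h2 := J_aeval (φ (X 0)) (φ (X 1)) G
    rw [← phi_eq_aeval, ← phi_eq_aeval, hG, map_zero] at h2
    rcases mul_eq_zero.mp h2.symm with h | h
    · exact h
    · exact absurd h hJ
  have h0 : φ (pderiv 0 G) = 0 := by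
    have h2 := deriv_aeval (J (φ (X 1))) (φ (X 0)) (φ (X 1)) G
    rw [← phi_eq_aeval, ← phi_eq_aeval, ← phi_eq_aeval, hG, map_zero, J_self, mul_zero,
      add_zero, J_swap (φ (X 0)), mul_neg] at h2
    rcases mul_eq_zero.mp (neg_eq_zero.mp h2.symm) with h | h
    · exact h
    · exact absurd h hJ
  have hp0 := (hsmall 0).resolve_right (fun h => h h0)
  have hp1 := (hsmall 1).resolve_right (fun h => h h1)
  obtain ⟨c, hc⟩ := const_of_pderiv hp0 hp1
  apply hGne
  rw [hc] at hG ⊢
  have h3 : φ (C c) = C c := φ.commutes c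
  rw [h3] at hG
  exact hG

lemma J_B1 [CharZero K] (φ : MvPolynomial (Fin 2) K →ₐ[K] MvPolynomial (Fin 2) K)
    (hφ : ¬ Function.Injective φ) (b b' : MvPolynomial (Fin 2) K) (hb : b ∈ B φ 1)
    (hb' : b' ∈ B φ 1) : J b b' = 0 := by
  have hJ := J_zero_of_noninj φ hφ
  obtain ⟨G, hG⟩ := hb
  obtain ⟨H, hH⟩ := hb'
  have hG' : φ G = b := by rw [← hG]; rfl
  have hH' : φ H = b' := by rw [← hH]; rfl
  have e0 : J b (φ (X 0)) = 0 := by
    rw [J_swap, ← hG', phi_eq_aeval φ G, J_aeval, hJ, mul_zero, neg_zero]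
  have e1 : J b (φ (X 1)) = 0 := by
    rw [J_swap, ← hG', phi_eq_aeval φ G, deriv_aeval, J_self, mul_zero, add_zero,
      J_swap (φ (X 0)), hJ, neg_zero, mul_zero, neg_zero]
  rw [← hH', phi_eq_aeval φ H, deriv_aeval, e0, e1, mul_zero, mul_zero, add_zero]

/-- leading exponents of polynomials with zero Jacobian are proportional -/
lemma ray [CharZero K] {b b' : MvPolynomial (Fin 2) K} (hb : b ≠ 0) (hb' : b' ≠ 0)
    (hJ : J b b' = 0) : mo.degree b 0 * mo.degree b' 1 = mo.degree b 1 * mo.degree b' 0 := by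
  have h1 : (X 0 * pderiv 0 b) * (X 1 * pderiv 1 b') - (X 1 * pderiv 1 b) * (X 0 * pderiv 0 b') = 0 := by
    have : X 0 * X 1 * J b b' = (X 0 * pderiv 0 b) * (X 1 * pderiv 1 b') -
        (X 1 * pderiv 1 b) * (X 0 * pderiv 0 b') := by
      rw [J_apply]; ring
    rw [← this, hJ, mul_zero]
  have hle : ∀ (i : Fin 2) (f : MvPolynomial (Fin 2) K),
      mo.toSyn (mo.degree (X i * pderiv i f)) ≤ mo.toSyn (mo.degree f) :=
    fun i f => dg_le_of_support (support_X_mul_pderiv i f)
  have hco : ∀ (i : Fin 2) (f : MvPolynomial (Fin 2) K) (s : Fin 2 →₀ ℕ),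
      coeff s (X i * pderiv i f) = (s i : K) * coeff s f := by
    intro i f s
    rw [coeff_X_mul']
    split_ifs with hi
    · rw [coeff_pderiv]
      rw [Finsupp.mem_support_iff] at hi
      have h2 : s - Finsupp.single i 1 + Finsupp.single i 1 = s := by
        ext j
        simp only [Finsupp.coe_add, Finsupp.coe_tsub, Pi.add_apply, Pi.sub_apply]
        by_cases hj : j = i
        · subst hj
          simp
          omega
        · rw [Finsupp.single_eq_of_ne hj]; omega
      have h3 : ((s - Finsupp.single i 1 : Fin 2 →₀ ℕ) i : K) + 1 = (s i : K) := by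
        have h4 : (s - Finsupp.single i 1 : Fin 2 →₀ ℕ) i + 1 = s i := by
          rw [Finsupp.coe_tsub, Pi.sub_apply, Finsupp.single_eq_same]
          omega
        exact_mod_cast congrArg (fun n : ℕ => (n : K)) h4
      rw [h2, h3, mul_comm]
    · rw [Finsupp.notMem_support_iff] at hi
      rw [hi, Nat.cast_zero, zero_mul]
  have h2 := congrArg (coeff (mo.degree b + mo.degree b')) h1
  rw [coeff_sub, mo.coeff_mul_of_add_of_degree_le (hle 0 b) (hle 1 b'),
    mo.coeff_mul_of_add_of_degree_le (hle 1 b) (hle 0 b'), hco, hco, hco, hco, coeff_zero] at h2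
  have hlb : coeff (mo.degree b) b ≠ 0 := mo.coeff_degree_ne_zero_iff.mpr hb
  have hlb' : coeff (mo.degree b') b' ≠ 0 := mo.coeff_degree_ne_zero_iff.mpr hb'
  have h3 : ((mo.degree b 0 : K) * (mo.degree b' 1 : K) - (mo.degree b 1 : K) * (mo.degree b' 0 : K))
      * (coeff (mo.degree b) b * coeff (mo.degree b') b') = 0 := by
    linear_combination h2
  rcases mul_eq_zero.mp h3 with h | h
  · have h4 := sub_eq_zero.mp h
    exact_mod_cast h4
  · exact absurd h (mul_ne_zero hlb hlb')

/-- one-dimensional graded pieces -/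
lemma cancel [CharZero K] {b b' : MvPolynomial (Fin 2) K} (hb : b ≠ 0) (hb' : b' ≠ 0)
    (hJ : J b b' = 0) (hJ' : ∀ c : K, J b (b - C c * b') = 0)
    (hdeg : b.totalDegree = b'.totalDegree) :
    ∃ c : K, b - C c * b' = 0 ∨
      (b - C c * b' ≠ 0 ∧ (b - C c * b').totalDegree < b.totalDegree) := by
  have hsum : ∀ f : MvPolynomial (Fin 2) K, mo.degree f 0 + mo.degree f 1 = f.totalDegree := by
    intro f
    rw [← MvPolynomial.degree_degLexDegree, Finsupp.degree_eq_sum, Fin.sum_univ_two]
  have hprop : ∀ f f' : MvPolynomial (Fin 2) K, f ≠ 0 → f' ≠ 0 → J f f' = 0 →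
      f.totalDegree = f'.totalDegree → mo.degree f = mo.degree f' := by
    intro f f' hf hf' hJ hd
    have h1 := ray hf hf' hJ
    have h2 := hsum f
    have h3 := hsum f'
    rw [hd] at h2
    have h4 : mo.degree f 0 = mo.degree f' 0 := by
      rcases Nat.eq_zero_or_pos f'.totalDegree with h0 | hpos
      · omega
      · have h5 : mo.degree f 0 * f'.totalDegree = mo.degree f' 0 * f'.totalDegree := by
          calc mo.degree f 0 * f'.totalDegree
              = mo.degree f 0 * (mo.degree f' 0 + mo.degree f' 1) := by rw [h3]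
            _ = mo.degree f' 0 * (mo.degree f 0 + mo.degree f 1) := by
                rw [mul_add, h1]; ring
            _ = mo.degree f' 0 * f'.totalDegree := by rw [h2]
        exact Nat.eq_of_mul_eq_mul_right hpos h5
    ext i
    fin_cases i
    · exact h4
    · show mo.degree f 1 = mo.degree f' 1
      omega
  have hd := hprop b b' hb hb' hJ hdeg
  have hl' : mo.leadingCoeff b' ≠ 0 := mo.leadingCoeff_ne_zero_iff.mpr hb'
  have hl : mo.leadingCoeff b ≠ 0 := mo.leadingCoeff_ne_zero_iff.mpr hb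
  set c : K := mo.leadingCoeff b / mo.leadingCoeff b' with hc
  have hc0 : c ≠ 0 := div_ne_zero hl hl'
  refine ⟨c, ?_⟩
  by_cases h0 : b - C c * b' = 0
  · exact Or.inl h0
  · right
    refine ⟨h0, ?_⟩
    have hle : dg (b - C c * b') ≤ dg b := by
      refine (dg_sub_le _ _).trans (max_le le_rfl ?_)
      rw [dg_C_mul hc0]
      unfold dg
      rw [hd]
    have hcoef : coeff (mo.degree b) (b - C c * b') = 0 := by
      rw [coeff_sub, coeff_C_mul]
      have e1 : coeff (mo.degree b) b = mo.leadingCoeff b := rfl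
      have e2 : coeff (mo.degree b) b' = mo.leadingCoeff b' := by rw [hd]; rfl
      rw [e1, e2, hc, div_mul_cancel₀ _ hl', sub_self]
    have htd := totalDegree_le_of_dg hle
    refine lt_of_le_of_ne htd ?_
    intro heq
    have h1 := hprop b (b - C c * b') hb h0 (hJ' c) heq.symm
    rw [h1] at hcoef
    exact (mo.coeff_degree_ne_zero_iff.mpr h0) hcoef

end Pool.Agent.Helper55.SI
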