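import Mathlib
import Pool.Agent.helper55.SINonInj

set_option autoImplicit false

/-!
The stable image of a non-injective endomorphism of `K[x, y]` is a retract: the end of the proof,
and the statement for all endomorphisms of `K[x, y]`.
-/

namespace Pool.Agent.Helper55.SI

open MvPolynomial

variable {K : Type*} [Field K]

lemma totalDegree_pow_dom {b : MvPolynomial (Fin 2) K} (hb : b ≠ 0) (k : ℕ) :
    (b ^ k).totalDegree = k * b.totalDegree := by
  induction k with
  | zero => simp
  | succ k ih =>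
    rw [pow_succ, totalDegree_mul_of_isDomain (pow_ne_zero k hb) hb, ih]
    ring

lemma mem_B1 (φ : MvPolynomial (Fin 2) K →ₐ[K] MvPolynomial (Fin 2) K)
    (q : MvPolynomial (Fin 2) K) : φ q ∈ B φ 1 := ⟨q, by
      show (φ ^ 1) q = φ q
      rw [pow_one]⟩

lemma C_mem (φ : MvPolynomial (Fin 2) K →ₐ[K] MvPolynomial (Fin 2) K) (k : ℕ) (c : K) :
    C c ∈ B φ k := (B φ k).algebraMap_mem c

lemma C_mul_mem (φ : MvPolynomial (Fin 2) K →ₐ[K] MvPolynomial (Fin 2) K) (k : ℕ) (c : K)
    {b : MvPolynomial (Fin 2) K} (hb : b ∈ B φ k) : C c * b ∈ B φ k :=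
  mul_mem (C_mem φ k c) hb

lemma phi_C (φ : MvPolynomial (Fin 2) K →ₐ[K] MvPolynomial (Fin 2) K) (c : K) :
    φ (C c) = C c := φ.commutes c

lemma cancel' [CharZero K] (φ : MvPolynomial (Fin 2) K →ₐ[K] MvPolynomial (Fin 2) K)
    (hφ : ¬ Function.Injective φ) {b b' : MvPolynomial (Fin 2) K} (hbm : b ∈ B φ 1)
    (hbm' : b' ∈ B φ 1) (hb : b ≠ 0) (hb' : b' ≠ 0)
    (hdeg : b.totalDegree = b'.totalDegree) :
    ∃ c : K, b - C c * b' = 0 ∨
      (b - C c * b' ≠ 0 ∧ (b - C c * b').totalDegree < b.totalDegree) :=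
  cancel hb hb' (J_B1 φ hφ b b' hbm hbm')
    (fun c => J_B1 φ hφ _ _ hbm (sub_mem hbm (C_mul_mem φ 1 c hbm'))) hdeg

/-- affine bound for the degree of the image -/
lemma affine_bound [CharZero K] (φ : MvPolynomial (Fin 2) K →ₐ[K] MvPolynomial (Fin 2) K)
    (hφ : ¬ Function.Injective φ) (b : MvPolynomial (Fin 2) K) (hb : b ∈ B φ 1)
    (hd : 0 < b.totalDegree) : ∃ A : ℕ, ∀ z ∈ B φ 1, z ≠ 0 →
      b.totalDegree * (φ z).totalDegree ≤ z.totalDegree * (φ b).totalDegree + A := by
  set d := b.totalDegree with hdd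
  have hb0 : b ≠ 0 := by
    rintro rfl
    rw [totalDegree_zero] at hdd
    omega
  -- choose minimal elements in each residue class
  have hmin : ∀ i : Fin d, ∃ e : MvPolynomial (Fin 2) K,
      (∃ z ∈ B φ 1, z ≠ 0 ∧ z.totalDegree % d = i) →
      (e ∈ B φ 1 ∧ e ≠ 0 ∧ e.totalDegree % d = i ∧
        ∀ z ∈ B φ 1, z ≠ 0 → z.totalDegree % d = i → e.totalDegree ≤ z.totalDegree) := by
    intro i
    by_cases h : ∃ z ∈ B φ 1, z ≠ 0 ∧ z.totalDegree % d = i
    · obtain ⟨z, hz⟩ := h
      obtain ⟨e, he, hemin⟩ := (InvImage.wf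
        (fun q : MvPolynomial (Fin 2) K => q.totalDegree) Nat.lt_wfRel.wf).has_min
        {q : MvPolynomial (Fin 2) K | q ∈ B φ 1 ∧ q ≠ 0 ∧ q.totalDegree % d = i}
        ⟨z, hz.1, hz.2.1, hz.2.2⟩
      refine ⟨e, fun _ => ⟨he.1, he.2.1, he.2.2, fun z' hz' hz0 hzd => ?_⟩⟩
      exact not_lt.mp (hemin z' ⟨hz', hz0, hzd⟩)
    · exact ⟨0, fun h' => absurd h' h⟩
  choose e he using hmin
  set Cb : ℕ := ∑ i : Fin d, (φ (e i)).totalDegree with hCb
  have hCle : ∀ i : Fin d, (φ (e i)).totalDegree ≤ Cb := fun i =>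
    Finset.single_le_sum (f := fun i => (φ (e i)).totalDegree) (fun _ _ => Nat.zero_le _)
      (Finset.mem_univ i)
  refine ⟨d * Cb, ?_⟩
  have key : ∀ N : ℕ, ∀ z ∈ B φ 1, z ≠ 0 → z.totalDegree = N →
      d * (φ z).totalDegree ≤ z.totalDegree * (φ b).totalDegree + d * Cb := by
    intro N
    induction N using Nat.strong_induction_on with
    | _ N ih =>
      intro z hz hz0 hzN
      have hi : z.totalDegree % d < d := Nat.mod_lt _ hd
      obtain ⟨h1, h2, h3, h4⟩ := he ⟨z.totalDegree % d, hi⟩ ⟨z, hz, hz0, rfl⟩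
      set e0 := e ⟨z.totalDegree % d, hi⟩ with he0
      have h3' : e0.totalDegree % d = z.totalDegree % d := h3
      have h5 := h4 z hz hz0 rfl
      obtain ⟨k, hk⟩ : ∃ k, z.totalDegree = e0.totalDegree + d * k := by
        have h6 : (z.totalDegree - e0.totalDegree) % d = 0 := Nat.sub_mod_eq_zero_of_mod_eq h3'.symm
        obtain ⟨k, hk⟩ := Nat.dvd_of_mod_eq_zero h6
        exact ⟨k, by omega⟩
      have hwm : b ^ k * e0 ∈ B φ 1 := mul_mem (pow_mem hb k) h1
      have hw0 : b ^ k * e0 ≠ 0 := mul_ne_zero (pow_ne_zero k hb0) h2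
      have hwd : z.totalDegree = (b ^ k * e0).totalDegree := by
        rw [totalDegree_mul_of_isDomain (pow_ne_zero k hb0) h2, totalDegree_pow_dom hb0, hk]
        ring
      obtain ⟨c, hc⟩ := cancel' φ hφ hz hwm hz0 hw0 hwd
      have hφz : φ z = C c * (φ b ^ k * φ e0) + φ (z - C c * (b ^ k * e0)) := by
        rw [map_sub, map_mul, map_mul, map_pow, phi_C]; ring
      have hφw : d * (C c * (φ b ^ k * φ e0)).totalDegree ≤
          z.totalDegree * (φ b).totalDegree + d * Cb := by
        have e1 : (C c * (φ b ^ k * φ e0)).totalDegree ≤ k * (φ b).totalDegree + Cb := by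
          refine (totalDegree_mul _ _).trans ?_
          rw [totalDegree_C, zero_add]
          refine (totalDegree_mul _ _).trans (add_le_add (totalDegree_pow _ _) (hCle _))
        calc d * (C c * (φ b ^ k * φ e0)).totalDegree
            ≤ d * (k * (φ b).totalDegree + Cb) := Nat.mul_le_mul_left d e1
          _ = (d * k) * (φ b).totalDegree + d * Cb := by ring
          _ ≤ z.totalDegree * (φ b).totalDegree + d * Cb := by
            have : d * k ≤ z.totalDegree := by omega
            exact Nat.add_le_add_right (Nat.mul_le_mul_right _ this) _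
      have hφr : d * (φ (z - C c * (b ^ k * e0))).totalDegree ≤
          z.totalDegree * (φ b).totalDegree + d * Cb := by
        rcases hc with hc | ⟨hc0, hclt⟩
        · rw [hc, map_zero, totalDegree_zero, mul_zero]
          exact Nat.zero_le _
        · have h7 := ih _ (hzN ▸ hclt) (z - C c * (b ^ k * e0))
            (sub_mem hz (C_mul_mem φ 1 c hwm)) hc0 rfl
          refine h7.trans ?_
          exact Nat.add_le_add_right (Nat.mul_le_mul_right _ hclt.le) _
      rw [hφz]
      have h8 := totalDegree_add (C c * (φ b ^ k * φ e0)) (φ (z - C c * (b ^ k * e0)))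
      rcases le_max_iff.mp h8 with h9 | h9
      · exact (Nat.mul_le_mul_left d h9).trans hφw
      · exact (Nat.mul_le_mul_left d h9).trans hφr
  intro z hz hz0
  exact key _ z hz hz0 rfl

lemma ratio_le [CharZero K] (φ : MvPolynomial (Fin 2) K →ₐ[K] MvPolynomial (Fin 2) K)
    (hφ : ¬ Function.Injective φ) (b b' : MvPolynomial (Fin 2) K) (hb : b ∈ B φ 1)
    (hb' : b' ∈ B φ 1) (hd : 0 < b.totalDegree) :
    b.totalDegree * (φ b').totalDegree ≤ b'.totalDegree * (φ b).totalDegree := by
  by_cases hb0 : φ b' = 0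
  · rw [hb0, totalDegree_zero, mul_zero]; exact Nat.zero_le _
  have hb'0 : b' ≠ 0 := by
    rintro rfl; exact hb0 (map_zero φ)
  obtain ⟨A, hA⟩ := affine_bound φ hφ b hb hd
  by_contra hcon
  push Not at hcon
  have h1 := hA (b' ^ (A + 1)) (pow_mem hb' _) (pow_ne_zero _ hb'0)
  rw [map_pow, totalDegree_pow_dom hb0, totalDegree_pow_dom hb'0] at h1
  have h2 : (A + 1) * (b'.totalDegree * (φ b).totalDegree + 1) ≤
      (A + 1) * (b'.totalDegree * (φ b).totalDegree) + A := by
    calc (A + 1) * (b'.totalDegree * (φ b).totalDegree + 1)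
        ≤ (A + 1) * (b.totalDegree * (φ b').totalDegree) := Nat.mul_le_mul_left _ hcon
      _ = b.totalDegree * ((A + 1) * (φ b').totalDegree) := by ring
      _ ≤ (A + 1) * b'.totalDegree * (φ b).totalDegree + A := h1
      _ = (A + 1) * (b'.totalDegree * (φ b).totalDegree) + A := by ring
  rw [mul_add] at h2
  omega

lemma ratio_eq [CharZero K] (φ : MvPolynomial (Fin 2) K →ₐ[K] MvPolynomial (Fin 2) K)
    (hφ : ¬ Function.Injective φ) (b b' : MvPolynomial (Fin 2) K) (hb : b ∈ B φ 1)
    (hb' : b' ∈ B φ 1) (hd : 0 < b.totalDegree) :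
    b.totalDegree * (φ b').totalDegree = b'.totalDegree * (φ b).totalDegree := by
  apply le_antisymm (ratio_le φ hφ b b' hb hb' hd)
  rcases Nat.eq_zero_or_pos b'.totalDegree with h0 | hpos
  · rw [h0, zero_mul]; exact Nat.zero_le _
  · exact ratio_le φ hφ b' b hb' hb hpos

lemma surj_of_fin {K M : Type*} [Field K] [AddCommGroup M] [Module K M] (W : Submodule K M)
    [FiniteDimensional K W] (f : M →ₗ[K] M) (hW : ∀ w ∈ W, f w ∈ W)
    (hinj : ∀ w ∈ W, f w = 0 → w = 0) : ∀ b ∈ W, ∃ w ∈ W, f w = b := by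
  intro b hb
  have hTinj : Function.Injective (f.restrict hW) := by
    rw [injective_iff_map_eq_zero]
    intro w hw
    apply Subtype.ext
    exact hinj w.1 w.2 (congrArg Subtype.val hw)
  obtain ⟨w, hw⟩ := LinearMap.injective_iff_surjective.mp hTinj ⟨b, hb⟩
  exact ⟨w.1, w.2, congrArg Subtype.val hw⟩

lemma stable_eq_bot (φ : MvPolynomial (Fin 2) K →ₐ[K] MvPolynomial (Fin 2) K)
    (h : ∀ r ∈ stableImage φ, r.totalDegree = 0) : stableImage φ = ⊥ := by
  rw [eq_bot_iff]
  intro r hr
  rw [Algebra.mem_bot]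
  exact ⟨coeff 0 r, (totalDegree_eq_zero_iff_eq_C.mp (h r hr)).symm⟩

lemma retract_of_const (φ : MvPolynomial (Fin 2) K →ₐ[K] MvPolynomial (Fin 2) K)
    (h : ∀ r ∈ stableImage φ, r.totalDegree = 0) : IsRetract (stableImage φ) :=
  retract_of_eq_bot φ (aeval (fun _ => (0 : K))) (stable_eq_bot φ h)

theorem retract_of_not_injective [CharZero K]
    (φ : MvPolynomial (Fin 2) K →ₐ[K] MvPolynomial (Fin 2) K)
    (hφ : ¬ Function.Injective φ) : IsRetract (stableImage φ) := by
  by_cases h0 : ∀ b ∈ B φ 1, b.totalDegree = 0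
  · exact retract_of_const φ (fun r hr => h0 r (stable_le φ 1 hr))
  push Not at h0
  obtain ⟨b0, hb0, hd0⟩ := h0
  have hd : 0 < b0.totalDegree := Nat.pos_of_ne_zero hd0
  rcases lt_trichotomy (φ b0).totalDegree b0.totalDegree with hlt | heq | hgt
  · -- degrees strictly drop
    have hdrop : ∀ b ∈ B φ 1, 0 < b.totalDegree → (φ b).totalDegree < b.totalDegree := by
      intro b hb hbd
      have h1 := ratio_eq φ hφ b0 b hb0 hb hd
      have h2 : b.totalDegree * (φ b0).totalDegree < b.totalDegree * b0.totalDegree :=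
        Nat.mul_lt_mul_of_pos_left hlt hbd
      rw [← h1, mul_comm b.totalDegree b0.totalDegree] at h2
      exact Nat.lt_of_mul_lt_mul_left h2
    -- a minimal non-constant element maps to a constant
    obtain ⟨e, he, hemin⟩ := (InvImage.wf
        (fun q : MvPolynomial (Fin 2) K => q.totalDegree) Nat.lt_wfRel.wf).has_min
        {q : MvPolynomial (Fin 2) K | q ∈ B φ 1 ∧ 0 < q.totalDegree} ⟨b0, hb0, hd⟩
    have h2 : (φ e).totalDegree = 0 := by
      by_contra hne
      exact hemin (φ e) ⟨mem_B1 φ e, Nat.pos_of_ne_zero hne⟩ (hdrop e he.1 he.2)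
    apply retract_of_const
    intro r hr
    obtain ⟨q, hq⟩ := stable_le φ 2 hr
    have hq' : φ (φ q) = r := by rw [← hq]; rfl
    have h3 := ratio_eq φ hφ e (φ q) he.1 (mem_B1 φ q) he.2
    rw [h2, mul_zero, hq'] at h3
    rcases Nat.mul_eq_zero.mp h3 with h | h
    · have := he.2; omega
    · exact h
  · -- degrees are preserved
    have hpres : ∀ b ∈ B φ 1, (φ b).totalDegree = b.totalDegree := by
      intro b hb
      have h1 := ratio_eq φ hφ b0 b hb0 hb hd
      rw [heq, mul_comm b.totalDegree] at h1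
      exact Nat.eq_of_mul_eq_mul_left hd h1
    have hinj : ∀ b ∈ B φ 1, φ b = 0 → b = 0 := by
      intro b hb hb0
      have h1 := hpres b hb
      rw [hb0, totalDegree_zero] at h1
      have h2 := totalDegree_eq_zero_iff_eq_C.mp h1.symm
      rw [h2, phi_C] at hb0
      rw [h2, hb0]
    apply retract_of_stab φ 1
    apply le_antisymm (B_anti φ (by omega))
    intro b hb
    haveI hVfin : FiniteDimensional K (restrictTotalDegree (Fin 2) K b.totalDegree) :=
      inferInstanceAs (Module.Finite K (restrictTotalDegree (Fin 2) K b.totalDegree))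
    haveI : FiniteDimensional K
        ((B φ 1).toSubmodule ⊓ restrictTotalDegree (Fin 2) K b.totalDegree :
          Submodule K (MvPolynomial (Fin 2) K)) :=
      Submodule.finiteDimensional_inf_right _ _
    obtain ⟨w, hw, hwb⟩ := surj_of_fin
      ((B φ 1).toSubmodule ⊓ restrictTotalDegree (Fin 2) K b.totalDegree) φ.toLinearMap
      (fun w hw => ⟨mem_B1 φ w, by
        show φ w ∈ restrictTotalDegree (Fin 2) K b.totalDegree
        rw [mem_restrictTotalDegree, hpres w hw.1]
        exact (mem_restrictTotalDegree _ _ _).mp hw.2⟩)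
      (fun w hw h0 => hinj w hw.1 h0) b ⟨hb, (mem_restrictTotalDegree _ _ _).mpr le_rfl⟩
    obtain ⟨q, hq⟩ : w ∈ B φ 1 := hw.1
    refine ⟨q, ?_⟩
    show (φ ^ (1 + 1)) q = b
    rw [pow_succ_apply]
    have hq' : (φ ^ 1) q = w := hq
    rw [hq']
    exact hwb
  · -- degrees strictly grow
    have hgrow : ∀ b ∈ B φ 1, 0 < b.totalDegree → b.totalDegree < (φ b).totalDegree := by
      intro b hb hbd
      have h1 := ratio_eq φ hφ b0 b hb0 hb hd
      have h2 : b.totalDegree * b0.totalDegree < b.totalDegree * (φ b0).totalDegree :=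
        Nat.mul_lt_mul_of_pos_left hgt hbd
      rw [← h1, mul_comm b.totalDegree b0.totalDegree] at h2
      exact Nat.lt_of_mul_lt_mul_left h2
    have hiter : ∀ k : ℕ, ∀ b ∈ B φ 1, 0 < b.totalDegree →
        k < ((φ ^ k) b).totalDegree ∧ (φ ^ k) b ∈ B φ 1 := by
      intro k
      induction k with
      | zero => intro b hb hbd; exact ⟨hbd, hb⟩
      | succ k ih =>
        intro b hb hbd
        obtain ⟨h1, h2⟩ := ih b hb hbd
        rw [pow_succ_apply]
        refine ⟨?_, mem_B1 φ _⟩
        have := hgrow _ h2 (by omega)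
        omega
    apply retract_of_const
    intro r hr
    by_contra hne
    obtain ⟨q, hq⟩ := stable_le φ (r.totalDegree + 1) hr
    have hq' : (φ ^ r.totalDegree) (φ q) = r := by
      rw [← pow_succ_apply']
      exact hq
    have h3 : 0 < (φ q).totalDegree := by
      by_contra h4
      have h5 : (φ q).totalDegree = 0 := by omega
      have h6 := totalDegree_eq_zero_iff_eq_C.mp h5
      rw [h6] at hq'
      have h7 : (φ ^ r.totalDegree) (C (coeff 0 (φ q))) = C (coeff 0 (φ q)) :=
        (φ ^ r.totalDegree).commutes _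
      rw [h7] at hq'
      apply hne
      rw [← hq', totalDegree_C]
    have h8 := (hiter r.totalDegree (φ q) (mem_B1 φ q) h3).1
    rw [hq'] at h8
    exact lt_irrefl _ h8

/-- For a field of characteristic zero, the stable image of every endomorphism of `K[x, y]` is a
retract. -/
theorem retract_two [CharZero K]
    (φ : MvPolynomial (Fin 2) K →ₐ[K] MvPolynomial (Fin 2) K) : IsRetract (stableImage φ) := by
  by_cases h : Function.Injective φ
  · exact retract_of_injective φ h
  · exact retract_of_not_injective φ h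

end Pool.Agent.Helper55.SI
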