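import Mathlib

set_option autoImplicit false

/-!
The stable (finitary) general linear group over the field with two elements, realised as the group
generated by the elementary transvections acting on all functions from the naturals to the field.
It is a simple group.
-/

namespace Pool.Agent.Helper55

/-- column vectors: all functions from the naturals to the field with two elements -/
abbrev V : Type := ℕ → ZMod 2

/-- The elementary transvection adding coordinate `s` to coordinate `l` (for `l ≠ s`). -/
def tvFun (l s : ℕ) (v : V) : V := fun m => if m = l then v m + v s else v m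

lemma tvFun_tvFun {l s : ℕ} (h : l ≠ s) (v : V) : tvFun l s (tvFun l s v) = v := by
  funext m
  unfold tvFun
  by_cases hm : m = l
  · subst hm
    simp only [if_true, if_neg (Ne.symm h)]
    rw [add_assoc, CharTwo.add_self_eq_zero, add_zero]
  · simp [hm]

/-- The elementary transvection as a linear automorphism. -/
def tv (l s : ℕ) (h : l ≠ s) : V ≃ₗ[ZMod 2] V where
  toFun := tvFun l s
  invFun := tvFun l s
  map_add' := by
    intro x y
    funext m
    unfold tvFun
    by_cases hm : m = l
    · simp only [hm, if_true, Pi.add_apply]; ring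
    · simp [hm]
  map_smul' := by
    intro c x
    funext m
    unfold tvFun
    by_cases hm : m = l
    · simp only [hm, if_true, Pi.smul_apply, RingHom.id_apply, smul_eq_mul]; ring
    · simp [hm]
  left_inv := tvFun_tvFun h
  right_inv := tvFun_tvFun h

lemma tv_apply (l s : ℕ) (h : l ≠ s) (v : V) (m : ℕ) :
    tv l s h v m = if m = l then v m + v s else v m := rfl

lemma tv_inv (l s : ℕ) (h : l ≠ s) : (tv l s h)⁻¹ = tv l s h := by
  rfl

/-- The stable general linear group. -/
def A0 : Subgroup (V ≃ₗ[ZMod 2] V) :=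
  Subgroup.closure {g | ∃ l s : ℕ, ∃ h : l ≠ s, g = tv l s h}

lemma tv_mem (l s : ℕ) (h : l ≠ s) : tv l s h ∈ A0 :=
  Subgroup.subset_closure ⟨l, s, h, rfl⟩

/-- finitary with bound `n` -/
def Fin' (n : ℕ) (g : V ≃ₗ[ZMod 2] V) : Prop :=
  (∀ v : V, (∀ i, i < n → v i = 0) → g v = v) ∧ (∀ v : V, ∀ m, n ≤ m → g v m = v m)

lemma Fin'.mono {n n' : ℕ} (h : n ≤ n') {g : V ≃ₗ[ZMod 2] V} (hg : Fin' n g) : Fin' n' g :=
  ⟨fun v hv => hg.1 v fun i hi => hv i (lt_of_lt_of_le hi h),
    fun v m hm => hg.2 v m (le_trans h hm)⟩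

lemma Fin'.mul {n : ℕ} {g g' : V ≃ₗ[ZMod 2] V} (hg : Fin' n g) (hg' : Fin' n g') :
    Fin' n (g * g') := by
  refine ⟨fun v hv => ?_, fun v m hm => ?_⟩
  · show g (g' v) = v
    rw [hg'.1 v hv, hg.1 v hv]
  · show g (g' v) m = v m
    rw [hg.2 _ m hm, hg'.2 _ m hm]

lemma Fin'.inv {n : ℕ} {g : V ≃ₗ[ZMod 2] V} (hg : Fin' n g) : Fin' n g⁻¹ := by
  refine ⟨fun v hv => ?_, fun v m hm => ?_⟩
  · show g.symm v = v
    rw [LinearEquiv.symm_apply_eq, hg.1 v hv]
  · show g.symm v m = v m
    have := hg.2 (g.symm v) m hm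
    rw [LinearEquiv.apply_symm_apply] at this
    exact this.symm

lemma exists_fin {g : V ≃ₗ[ZMod 2] V} (hg : g ∈ A0) : ∃ n, Fin' n g := by
  induction hg using Subgroup.closure_induction with
  | mem x hx =>
    obtain ⟨l, s, h, rfl⟩ := hx
    refine ⟨max l s + 1, fun v hv => ?_, fun v m hm => ?_⟩
    · funext m
      rw [tv_apply, hv s (by omega)]
      simp
    · rw [tv_apply, if_neg (by omega)]
  | one => exact ⟨0, fun v _ => rfl, fun v m _ => rfl⟩
  | mul x y _ _ hx hy =>
    obtain ⟨n, hn⟩ := hx
    obtain ⟨m, hm⟩ := hy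
    exact ⟨max n m, (hn.mono (le_max_left _ _)).mul (hm.mono (le_max_right _ _))⟩
  | inv x _ hx =>
    obtain ⟨n, hn⟩ := hx
    exact ⟨n, hn.inv⟩

/-- standard basis vectors -/
def eps (j : ℕ) : V := fun m => if m = j then 1 else 0

lemma zmod2_ne {a b : ZMod 2} (h : a ≠ b) : b + a = 1 := by
  revert a b; decide

lemma fin_ext {n : ℕ} {g : V ≃ₗ[ZMod 2] V} (hg : Fin' n g) (h : ∀ j, g (eps j) = eps j) : g = 1 := by
  ext1 v
  show g v = v
  have key : ∀ k, ∀ v : V, (∀ i, i < k ∨ n ≤ i → v i = 0) → k ≤ n → g v = v := by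
    intro k
    intro v hv hk
    induction hd : n - k generalizing k v with
    | zero =>
      have : v = 0 := by
        funext i
        apply hv
        omega
      rw [this, map_zero]
    | succ d ih =>
      have h1 : v = (v - v k • eps k) + v k • eps k := by abel
      rw [h1, map_add, map_smul, h k]
      congr 1
      apply ih (k + 1) _ _ (by omega) (by omega)
      intro i hi
      simp only [Pi.sub_apply, Pi.smul_apply, smul_eq_mul, eps]
      by_cases hik : i = k
      · subst hik; simp
      · rw [if_neg hik, mul_zero, sub_zero]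
        apply hv
        omega
  -- split v in two parts
  have hsplit : v = (fun i => if i < n then v i else 0) + (fun i => if i < n then 0 else v i) := by
    funext i
    simp only [Pi.add_apply]
    split_ifs <;> simp
  have e1 : g (fun i => if i < n then v i else 0) = (fun i => if i < n then v i else 0) := by
    apply key 0 _ _ (Nat.zero_le n)
    intro i hi
    rcases hi with hi | hi
    · omega
    · simp only [if_neg (not_lt.mpr hi)]
  have e2 : g (fun i => if i < n then 0 else v i) = (fun i => if i < n then 0 else v i) := by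
    apply hg.1
    intro i hi
    simp only [if_pos hi]
  conv_lhs => rw [hsplit]
  rw [map_add, e1, e2]
  exact hsplit.symm

/-- commutator formulas -/
lemma comm1 {l m k : ℕ} (h1 : l ≠ m) (h2 : m ≠ k) (h3 : l ≠ k) :
    tv l m h1 * tv m k h2 * (tv l m h1)⁻¹ * (tv m k h2)⁻¹ = tv l k h3 := by
  rw [tv_inv, tv_inv]
  ext1 v
  show tv l m h1 (tv m k h2 (tv l m h1 (tv m k h2 v))) = tv l k h3 v
  funext x
  simp only [tv_apply]
  by_cases hx : x = l
  · subst hx
    have := CharTwo.add_self_eq_zero (v x)
    have h4 := CharTwo.add_self_eq_zero (v m)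
    have h5 := CharTwo.add_self_eq_zero (v k)
    simp only [if_true, if_neg h1, if_neg h3, if_neg (Ne.symm h1), if_neg (Ne.symm h3),
      if_neg h2, if_neg (Ne.symm h2)]
    linear_combination h4 + h5
  · by_cases hx' : x = m
    · subst hx'
      have h5 := CharTwo.add_self_eq_zero (v k)
      simp only [if_true, if_neg hx, if_neg h3, if_neg (Ne.symm h3),
        if_neg h2, if_neg (Ne.symm h2), if_neg h1]
      linear_combination h5
    · simp [hx, hx']

/-- The main step: a normal subgroup containing a nontrivial element contains everything. -/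
theorem normal_top (K : Subgroup (V ≃ₗ[ZMod 2] V)) (hK : K ≤ A0)
    (hn : ∀ a ∈ A0, ∀ g ∈ K, a * g * a⁻¹ ∈ K) (g : V ≃ₗ[ZMod 2] V) (hg : g ∈ K) (hg1 : g ≠ 1) :
    K = A0 := by
  have hgA : g ∈ A0 := hK hg
  obtain ⟨n, hgn⟩ := exists_fin hgA
  -- commutators
  have hcomm : ∀ x ∈ K, ∀ a ∈ A0, x * a * x⁻¹ * a⁻¹ ∈ K := by
    intro x hx a ha
    have := K.mul_mem hx (hn a ha _ (K.inv_mem hx))
    simpa [mul_assoc] using this
  have hcomm' : ∀ x ∈ K, ∀ a ∈ A0, a * x * a⁻¹ * x⁻¹ ∈ K := by
    intro x hx a ha
    exact K.mul_mem (hn a ha _ hx) (K.inv_mem hx)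
  -- step 1: a moved basis vector
  obtain ⟨j, hj⟩ : ∃ j, g⁻¹ (eps j) ≠ eps j := by
    by_contra hcon
    push Not at hcon
    have := fin_ext hgn.inv hcon
    exact hg1 (inv_eq_one.mp this)
  obtain ⟨i, hi⟩ : ∃ i, g⁻¹ (eps j) i ≠ eps j i := by
    by_contra hcon
    push Not at hcon
    exact hj (funext hcon)
  have hjn : j < n := by
    by_contra hcon
    apply hj
    apply hgn.inv.1
    intro i hi
    simp only [eps]
    rw [if_neg (by omega)]
  have hin : i < n := by
    by_contra hcon
    exact hi (hgn.inv.2 _ i (by omega))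
  -- the first commutator
  have hni : n ≠ i := by omega
  set c := g * tv n i hni * g⁻¹ * (tv n i hni)⁻¹ with hc
  have hcK : c ∈ K := hcomm g hg _ (tv_mem _ _ _)
  have hgeps : g (eps n) = eps n := by
    apply hgn.1
    intro i hi
    simp only [eps]
    rw [if_neg (by omega)]
  have htv : ∀ (l s : ℕ) (h : l ≠ s) (v : V), tv l s h v = v + v s • eps l := by
    intro l s h v
    funext x
    rw [tv_apply]
    simp only [Pi.add_apply, Pi.smul_apply, smul_eq_mul, eps]
    by_cases hx : x = l <;> simp [hx]
  have hcv : ∀ v : V, c v = v + (v i + g⁻¹ v i) • eps n := by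
    intro v
    have hgiv : ∀ w : V, g (g⁻¹ w) = w := fun w => by
      show (g * g⁻¹) w = w
      rw [mul_inv_cancel]; rfl
    have hgie : g⁻¹ (eps n) = eps n := by
      apply hgn.inv.1
      intro i hi
      simp only [eps]
      rw [if_neg (by omega)]
    rw [hc, tv_inv]
    show g (tv n i hni (g⁻¹ (tv n i hni v))) = _
    rw [htv n i hni v, map_add, map_smul, hgie, htv n i hni, map_add, map_add, hgiv, map_smul,
      map_smul, hgeps]
    have : (g⁻¹ v + v i • eps n) i = g⁻¹ v i := by
      simp only [Pi.add_apply, Pi.smul_apply, smul_eq_mul, eps]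
      rw [if_neg (by omega)]; ring
    rw [this, add_assoc, ← add_smul]
  -- second commutator
  have hjk : j ≠ n + 1 := by omega
  have hnk : n ≠ n + 1 := by omega
  have hrn : ∀ x : V, ∀ t : ZMod 2, (x + t • eps n) i + g⁻¹ (x + t • eps n) i = x i + g⁻¹ x i := by
    intro x t
    have hgie : g⁻¹ (eps n) = eps n := by
      apply hgn.inv.1
      intro i hi
      simp only [eps]
      rw [if_neg (by omega)]
    rw [map_add, map_smul, hgie]
    simp only [Pi.add_apply, Pi.smul_apply, smul_eq_mul, eps]
    rw [if_neg (by omega)]; ring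
  have hci : c⁻¹ = c := by
    rw [inv_eq_iff_mul_eq_one]
    ext1 v
    show c (c v) = v
    rw [hcv (c v), hcv v, hrn, add_assoc, ← add_smul, CharTwo.add_self_eq_zero, zero_smul, add_zero]
  have hrj : eps j i + g⁻¹ (eps j) i = 1 := zmod2_ne hi
  have hTnk : tv n (n + 1) hnk ∈ K := by
    have h1 := hcomm c hcK _ (tv_mem j (n + 1) hjk)
    have h2 : c * tv j (n + 1) hjk * c⁻¹ * (tv j (n + 1) hjk)⁻¹ = tv n (n + 1) hnk := by
      rw [tv_inv, hci]
      ext1 v
      show c (tv j (n + 1) hjk (c (tv j (n + 1) hjk v))) = _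
      rw [htv j (n + 1) hjk v, hcv (v + v (n + 1) • eps j)]
      have e1 : (v + v (n + 1) • eps j) i + g⁻¹ (v + v (n + 1) • eps j) i
          = v i + g⁻¹ v i + v (n + 1) := by
        rw [map_add, map_smul]
        simp only [Pi.add_apply, Pi.smul_apply, smul_eq_mul]
        linear_combination (v (n + 1)) * hrj
      rw [e1, htv j (n + 1) hjk]
      have e2 : (v + v (n + 1) • eps j + (v i + g⁻¹ v i + v (n + 1)) • eps n) (n + 1) = v (n + 1) := by
        simp only [Pi.add_apply, Pi.smul_apply, smul_eq_mul, eps]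
        rw [if_neg (by omega), if_neg (by omega)]; ring
      rw [e2]
      have e3 : v + v (n + 1) • eps j + (v i + g⁻¹ v i + v (n + 1)) • eps n + v (n + 1) • eps j
          = v + (v i + g⁻¹ v i + v (n + 1)) • eps n := by
        have : v (n + 1) • eps j + v (n + 1) • eps j = 0 := by
          rw [← add_smul, CharTwo.add_self_eq_zero, zero_smul]
        calc v + v (n + 1) • eps j + (v i + g⁻¹ v i + v (n + 1)) • eps n + v (n + 1) • eps j
            = v + (v i + g⁻¹ v i + v (n + 1)) • eps n + (v (n + 1) • eps j + v (n + 1) • eps j) := by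
              abel
          _ = _ := by rw [this, add_zero]
      rw [e3, hcv, hrn, htv, add_assoc, ← add_smul]
      congr 2
      linear_combination CharTwo.add_self_eq_zero (v i) + CharTwo.add_self_eq_zero (g⁻¹ v i)
    rw [← h2]
    exact h1
  -- spreading
  have ruleA : ∀ l m k : ℕ, ∀ (h : m ≠ k), tv m k h ∈ K → ∀ (hlk : l ≠ k), tv l k hlk ∈ K := by
    intro l m k h hm hlk
    by_cases hlm : l = m
    · subst hlm; exact hm
    · have := hcomm' _ hm _ (tv_mem l m hlm)
      rw [comm1 hlm h hlk] at this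
      exact this
  have ruleB : ∀ m k s : ℕ, ∀ (h : m ≠ k), tv m k h ∈ K → ∀ (hms : m ≠ s), tv m s hms ∈ K := by
    intro m k s h hm hms
    by_cases hks : k = s
    · subst hks; exact hm
    · have := hcomm _ hm _ (tv_mem k s hks)
      rw [comm1 h hks hms] at this
      exact this
  apply le_antisymm hK
  unfold A0
  rw [Subgroup.closure_le]
  rintro x ⟨l, s, hls, rfl⟩
  show tv l s hls ∈ K
  have hp : n ≠ (l + s + n + 2) := by omega
  have h1 := ruleB n (n + 1) (l + s + n + 2) hnk hTnk hp
  have h2 := ruleA l n (l + s + n + 2) hp h1 (by omega)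
  exact ruleB l (l + s + n + 2) s (by omega) h2 hls

theorem isSimple_A0 : IsSimpleGroup A0 where
  exists_pair_ne := by
    refine ⟨⟨tv 0 1 (by decide), tv_mem _ _ _⟩, 1, ?_⟩
    intro h
    have h1 : tv 0 1 (by decide) = 1 := congrArg Subtype.val h
    have h2 : tv 0 1 (by decide) (eps 1) 0 = (eps 1) 0 := by rw [h1]; rfl
    rw [tv_apply] at h2
    simp [eps] at h2
  eq_bot_or_eq_top_of_normal := by
    intro K hK
    by_cases hbot : K = ⊥
    · exact Or.inl hbot
    · right
      obtain ⟨g, hg, hg1⟩ : ∃ g ∈ K, g ≠ 1 := by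
        by_contra hcon
        push Not at hcon
        apply hbot
        rw [eq_bot_iff]
        intro x hx
        rw [Subgroup.mem_bot]
        exact hcon x hx
      have := normal_top (K.map A0.subtype) (by
          rintro x ⟨y, _, rfl⟩
          exact y.2) (by
          rintro a ha x ⟨y, hy, rfl⟩
          refine ⟨⟨a, ha⟩ * y * ⟨a, ha⟩⁻¹, hK.conj_mem y hy ⟨a, ha⟩, rfl⟩) g.1 ⟨g, hg, rfl⟩ (by
          intro h
          apply hg1
          exact Subtype.ext h)
      rw [eq_top_iff]
      intro x _
      have hx : x.1 ∈ K.map A0.subtype := by rw [this]; exact x.2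
      obtain ⟨y, hy, hyx⟩ := hx
      have : y = x := Subtype.ext hyx
      rw [← this]; exact hy

end Pool.Agent.Helper55
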