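import Mathlib
import Pool.Agent.helper55.FinGL

set_option autoImplicit false

/-!
The group `N x| A0`, factorized by two copies of the simple group `A0`.
-/

namespace Pool.Agent.Helper55

/-- finitely supported sequences of finitely supported vectors -/
def NN : AddSubgroup (ℕ → V) where
  carrier := {y | ∃ n, ∀ i j, (n ≤ i ∨ n ≤ j) → y i j = 0}
  zero_mem' := ⟨0, fun _ _ _ => rfl⟩
  add_mem' := by
    rintro x y ⟨n, hn⟩ ⟨m, hm⟩
    refine ⟨max n m, fun i j h => ?_⟩
    simp only [Pi.add_apply]
    rw [hn i j (by omega), hm i j (by omega), add_zero]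
  neg_mem' := by
    rintro x ⟨n, hn⟩
    refine ⟨n, fun i j h => ?_⟩
    simp only [Pi.neg_apply]
    rw [hn i j h, neg_zero]

lemma act_mem {a : V ≃ₗ[ZMod 2] V} (ha : a ∈ A0) {y : ℕ → V} (hy : y ∈ NN) :
    (fun i => a (y i)) ∈ NN := by
  obtain ⟨n, hn⟩ := hy
  obtain ⟨m, hm⟩ := exists_fin ha
  refine ⟨max n m, fun i j h => ?_⟩
  by_cases hi : n ≤ i
  · have : y i = 0 := funext fun j => hn i j (Or.inl hi)
    show a (y i) j = 0
    rw [this, map_zero]; rfl
  · have hj : max n m ≤ j := by omega
    show a (y i) j = 0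
    rw [hm.2 _ j (by omega), hn i j (by omega)]

/-- The action of `A0` on `NN`. -/
def act (a : A0) (y : NN) : NN := ⟨fun i => a.1 (y.1 i), act_mem a.2 y.2⟩

lemma act_one (y : NN) : act 1 y = y := rfl

lemma act_mul (a b : A0) (y : NN) : act (a * b) y = act a (act b y) := rfl

lemma act_add (a : A0) (x y : NN) : act a (x + y) = act a x + act a y := by
  apply Subtype.ext
  funext i
  exact map_add a.1 _ _

lemma act_zero (a : A0) : act a 0 = 0 := by
  apply Subtype.ext
  funext i
  exact map_zero a.1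

lemma act_neg (a : A0) (x : NN) : act a (-x) = -act a x := by
  apply Subtype.ext
  funext i
  exact map_neg a.1 _

/-- The semidirect product. -/
@[ext] structure GG where
  n : NN
  a : A0

instance : Mul GG := ⟨fun x y => ⟨x.n + act x.a y.n, x.a * y.a⟩⟩
instance : One GG := ⟨⟨0, 1⟩⟩
instance : Inv GG := ⟨fun x => ⟨-act x.a⁻¹ x.n, x.a⁻¹⟩⟩

lemma mul_n (x y : GG) : (x * y).n = x.n + act x.a y.n := rfl
lemma mul_a (x y : GG) : (x * y).a = x.a * y.a := rfl
lemma one_n : (1 : GG).n = 0 := rfl
lemma one_a : (1 : GG).a = 1 := rfl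
lemma inv_n (x : GG) : (x⁻¹).n = -act x.a⁻¹ x.n := rfl
lemma inv_a (x : GG) : (x⁻¹).a = x.a⁻¹ := rfl

instance : Group GG := Group.ofLeftAxioms
  (by
    intro x y z
    apply GG.ext
    · simp only [mul_n, mul_a, act_mul, act_add, add_assoc]
    · simp only [mul_a, mul_assoc])
  (by
    intro x
    apply GG.ext
    · simp only [mul_n, one_n, one_a, act_one, zero_add]
    · simp only [mul_a, one_a, one_mul])
  (by
    intro x
    apply GG.ext
    · simp only [mul_n, inv_n, inv_a, one_n, neg_add_cancel]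
    · simp only [mul_a, inv_a, one_a, inv_mul_cancel])

/-- the column finite matrix with infinitely many ones in each row -/
def P : ℕ → V := fun i j => if (Nat.unpair j).1 = i then 1 else 0

lemma delta_mem {a : V ≃ₗ[ZMod 2] V} (ha : a ∈ A0) : (fun i => a (P i) - P i) ∈ NN := by
  obtain ⟨n, hn⟩ := exists_fin ha
  refine ⟨n, fun i j h => ?_⟩
  show a (P i) j - P i j = 0
  by_cases hj : n ≤ j
  · rw [hn.2 _ j hj, sub_self]
  · have hi : n ≤ i := by omega
    rw [hn.1, sub_self]
    intro k hk
    unfold P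
    rw [if_neg]
    have := Nat.unpair_left_le k
    omega

/-- the derivation -/
def delta (a : A0) : NN := ⟨fun i => a.1 (P i) - P i, delta_mem a.2⟩

lemma delta_mul (a b : A0) : delta (a * b) = delta a + act a (delta b) := by
  apply Subtype.ext
  funext i
  show a.1 (b.1 (P i)) - P i = (a.1 (P i) - P i) + a.1 (b.1 (P i) - P i)
  rw [map_sub]
  abel

lemma delta_one : delta 1 = 0 := by
  apply Subtype.ext
  funext i
  exact sub_self _

/-- first embedding -/
def iA : A0 →* GG where
  toFun a := ⟨0, a⟩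
  map_one' := rfl
  map_mul' := by
    intro a b
    apply GG.ext
    · simp only [mul_n, act_zero, add_zero]
    · rfl

/-- second embedding -/
def iB : A0 →* GG where
  toFun a := ⟨delta a, a⟩
  map_one' := by
    apply GG.ext
    · exact delta_one
    · rfl
  map_mul' := by
    intro a b
    apply GG.ext
    · exact delta_mul a b
    · rfl

lemma iA_inj : Function.Injective iA := fun _ _ h => congrArg GG.a h
lemma iB_inj : Function.Injective iB := fun _ _ h => congrArg GG.a h

/-- transitivity: all `P + (finitely supported)` are in the orbit of `P` -/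
lemma trans_aux (S : Finset (ℕ × ℕ)) :
    ∃ a ∈ A0, ∀ i j, a (P i) j = P i j + (if (i, j) ∈ S then 1 else 0) := by
  classical
  induction S using Finset.induction_on with
  | empty =>
    refine ⟨1, A0.one_mem, fun i j => ?_⟩
    rw [if_neg (Finset.notMem_empty _), add_zero]
    rfl
  | insert p S hp ih =>
    obtain ⟨a, ha, h⟩ := ih
    obtain ⟨i0, l⟩ := p
    -- a bound for the support
    obtain ⟨b, hb⟩ : ∃ b, ∀ q ∈ S, q.2 < b := by
      refine ⟨(S.sup fun q => q.2) + 1, fun q hq => ?_⟩
      have := Finset.le_sup (f := fun q : ℕ × ℕ => q.2) hq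
      exact Nat.lt_succ_of_le this
    set s := Nat.pair i0 (b + l + 1) with hs
    have hsb : b + l + 1 ≤ s := Nat.right_le_pair _ _
    have hls : l ≠ s := by omega
    refine ⟨tv l s hls * a, A0.mul_mem (tv_mem _ _ _) ha, fun i j => ?_⟩
    show tv l s hls (a (P i)) j = _
    rw [tv_apply, h i j]
    have hPs : a (P i) s = if i = i0 then 1 else 0 := by
      rw [h i s, if_neg (fun hmem => by
        have h7 : s < b := hb _ hmem
        omega), add_zero]
      unfold P
      rw [hs, Nat.unpair_pair]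
      simp only [eq_comm]
    by_cases hj : j = l
    · subst hj
      rw [if_pos rfl, hPs]
      by_cases hi : i = i0
      · subst hi
        rw [if_neg hp, if_pos rfl, if_pos (Finset.mem_insert_self _ _), add_zero]
      · rw [if_neg hi, add_zero]
        congr 1
        have : (i, j) ∈ insert (i0, j) S ↔ (i, j) ∈ S := by
          rw [Finset.mem_insert]
          constructor
          · rintro (h | h)
            · exact absurd (congrArg Prod.fst h) hi
            · exact h
          · exact Or.inr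
        simp only [this]
    · rw [if_neg hj]
      congr 1
      have : (i, j) ∈ insert (i0, l) S ↔ (i, j) ∈ S := by
        rw [Finset.mem_insert]
        constructor
        · rintro (h | h)
          · exact absurd (congrArg Prod.snd h) hj
          · exact h
        · exact Or.inr
      simp only [this]

lemma delta_surj (y : NN) : ∃ a : A0, delta a = y := by
  classical
  obtain ⟨n, hn⟩ := y.2
  set S : Finset (ℕ × ℕ) :=
    ((Finset.range n) ×ˢ (Finset.range n)).filter (fun p => y.1 p.1 p.2 ≠ 0) with hS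
  obtain ⟨a, ha, h⟩ := trans_aux S
  refine ⟨⟨a, ha⟩, ?_⟩
  apply Subtype.ext
  funext i j
  show a (P i) j - P i j = y.1 i j
  rw [h i j, add_sub_cancel_left]
  by_cases hz : y.1 i j = 0
  · rw [hz, if_neg]
    rw [hS, Finset.mem_filter]
    rintro ⟨_, h2⟩
    exact h2 hz
  · have h1 : y.1 i j = 1 := by
      have : ∀ z : ZMod 2, z ≠ 0 → z = 1 := by decide
      exact this _ hz
    rw [h1, if_pos]
    rw [hS, Finset.mem_filter, Finset.mem_product, Finset.mem_range, Finset.mem_range]
    refine ⟨⟨?_, ?_⟩, hz⟩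
    · by_contra hcon
      exact hz (hn i j (Or.inl (by simpa using hcon)))
    · by_contra hcon
      exact hz (hn i j (Or.inr (by simpa using hcon)))

/-- the factorization -/
theorem factorization (g : GG) : ∃ a ∈ iA.range, ∃ b ∈ iB.range, g = a * b := by
  -- delta b = act (a inverse) n, with a = g.a * b inverse
  obtain ⟨h, hh⟩ := delta_surj (-act (g.a⁻¹) g.n)
  refine ⟨iA (g.a * h), ⟨_, rfl⟩, iB h⁻¹, ⟨_, rfl⟩, ?_⟩
  apply GG.ext
  · show g.n = 0 + act (g.a * h) (delta h⁻¹)
    have h1 : delta h + act h (delta h⁻¹) = 0 := by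
      rw [← delta_mul, mul_inv_cancel, delta_one]
    have h2 : act h (delta h⁻¹) = act (g.a⁻¹) g.n := by
      rw [hh] at h1
      exact (neg_add_eq_zero.mp h1).symm
    rw [zero_add, act_mul, h2, ← act_mul, mul_inv_cancel, act_one]
  · show g.a = g.a * h * h⁻¹
    rw [mul_inv_cancel_right]

/-- the normal subgroups -/
def NK (k : ℕ) : Subgroup GG where
  carrier := {g | g.a = 1 ∧ ∀ i < k, g.n.1 i = 0}
  one_mem' := ⟨rfl, fun _ _ => rfl⟩
  mul_mem' := by
    rintro x y ⟨hx, hx'⟩ ⟨hy, hy'⟩
    refine ⟨by rw [mul_a, hx, hy, one_mul], fun i hi => ?_⟩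
    show (x.n + act x.a y.n).1 i = 0
    show x.n.1 i + x.a.1 (y.n.1 i) = 0
    rw [hx' i hi, hy' i hi, map_zero, add_zero]
  inv_mem' := by
    rintro x ⟨hx, hx'⟩
    refine ⟨by rw [inv_a, hx, inv_one], fun i hi => ?_⟩
    show -((x.a⁻¹).1 (x.n.1 i)) = 0
    rw [hx' i hi, map_zero, neg_zero]

instance (k : ℕ) : (NK k).Normal where
  conj_mem := by
    rintro x ⟨hx, hx'⟩ g
    refine ⟨by rw [mul_a, mul_a, inv_a, hx, mul_one, mul_inv_cancel], fun i hi => ?_⟩
    show g.n.1 i + g.a.1 (x.n.1 i) + (g.a * x.a).1 (-((g.a⁻¹).1 (g.n.1 i))) = 0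
    rw [hx' i hi, hx, mul_one, map_zero, add_zero, map_neg]
    have : g.a.1 ((g.a⁻¹).1 (g.n.1 i)) = g.n.1 i := by
      show (g.a * g.a⁻¹).1 (g.n.1 i) = g.n.1 i
      rw [mul_inv_cancel]; rfl
    rw [this, add_neg_cancel]

/-- a basis element -/
def sing (k : ℕ) : GG := ⟨⟨fun i j => if i = k ∧ j = 0 then 1 else 0, ⟨k + 1, fun i j hij => by
        show (if i = k ∧ j = 0 then (1 : ZMod 2) else 0) = 0
        rw [if_neg]; omega⟩⟩, 1⟩

lemma sing_apply (k i : ℕ) : (sing k).n.1 i 0 = if i = k then 1 else 0 := by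
  show (if i = k ∧ 0 = 0 then (1 : ZMod 2) else 0) = _
  simp

lemma sing_mem (k : ℕ) : sing k ∈ NK k := by
  refine ⟨rfl, fun i hi => ?_⟩
  funext j
  show (if i = k ∧ j = 0 then (1 : ZMod 2) else 0) = 0
  rw [if_neg]; omega

lemma NK_lt (k : ℕ) : NK (k + 1) < NK k := by
  rw [lt_iff_le_and_ne]
  constructor
  · rintro x ⟨hx, hx'⟩
    exact ⟨hx, fun i hi => hx' i (by omega)⟩
  · intro h
    have hmem : sing k ∈ NK k := sing_mem k
    rw [← h] at hmem
    have h1 := congrFun (hmem.2 k (by omega)) 0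
    rw [sing_apply, if_pos rfl] at h1
    exact one_ne_zero h1

lemma NK_comm {x y : GG} (hx : x ∈ NK 0) (hy : y ∈ NK 0) : x * y = y * x := by
  apply GG.ext
  · rw [mul_n, mul_n, hx.1, hy.1, act_one, act_one, add_comm]
  · rw [mul_a, mul_a, hx.1, hy.1]

lemma NK_infinite : Infinite (NK 0) := by
  apply Infinite.of_injective
    (fun k : ℕ => (⟨sing k, ⟨(sing_mem k).1, fun i hi => absurd hi (by omega)⟩⟩ : NK 0))
  intro k l h
  have h1 := congrArg (fun x : NK 0 => x.1.n.1 k 0) h
  simp only [sing_apply] at h1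
  by_contra hkl
  rw [if_pos trivial, if_neg hkl] at h1
  exact one_ne_zero h1

end Pool.Agent.Helper55
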