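import Mathlib
import Pool.Agent.helper55.Fact

set_option autoImplicit false

namespace Pool.Agent.Helper55

/-- A group with a composition series has no infinite abelian normal subgroup. -/
theorem no_comp_series {G : Type} [Group G] (N : Subgroup G) [hN : N.Normal]
    (hcomm : ∀ x ∈ N, ∀ y ∈ N, x * y = y * x) (hinf : Infinite N)
    (h : ∃ n : ℕ, ∃ s : Fin (n+1) → Subgroup G, s 0 = ⊥ ∧ s (Fin.last n) = ⊤ ∧
      ∀ i : Fin n, s i.castSucc ≤ s i.succ ∧
        ((s i.castSucc).subgroupOf (s i.succ)).Normal ∧
        (s i.castSucc).subgroupOf (s i.succ) ≠ ⊤ ∧
        ∀ M : Subgroup (s i.succ), M.Normal →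
          (s i.castSucc).subgroupOf (s i.succ) ≤ M →
          M = (s i.castSucc).subgroupOf (s i.succ) ∨ M = ⊤) : False := by
  obtain ⟨n, s, h0, hlast, hs⟩ := h
  have key : ∀ i : Fin (n + 1), (⊥ : Subgroup G).relIndex (N ⊓ s i) ≠ 0 := by
    intro i
    induction i using Fin.induction with
    | zero =>
      rw [h0, inf_bot_eq]
      simp
    | succ i ih =>
      obtain ⟨hle, hnorm, hne, hmax⟩ := hs i
      set H := s i.castSucc with hH
      set L := s i.succ with hL
      -- it suffices to bound the relative index
      suffices hrel : (N ⊓ H).relIndex (N ⊓ L) ≠ 0 by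
        have hmul := Subgroup.relIndex_mul_relIndex (⊥ : Subgroup G) (N ⊓ H) (N ⊓ L) bot_le
          (inf_le_inf_left N hle)
        rw [← hmul]
        exact mul_ne_zero ih hrel
      -- the image of N in the quotient
      by_cases hNH : N ⊓ L ≤ H
      · have : (N ⊓ H).relIndex (N ⊓ L) = 1 := by
          rw [Subgroup.relIndex_eq_one]
          exact le_inf inf_le_left hNH
        rw [this]; exact one_ne_zero
      · -- then the quotient L/H is abelian and simple
        have hsup : (N.subgroupOf L) ⊔ (H.subgroupOf L) = ⊤ := by
          have h1 := hmax ((N.subgroupOf L) ⊔ (H.subgroupOf L)) inferInstance le_sup_right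
          rcases h1 with h1 | h1
          · exfalso
            apply hNH
            intro x hx
            have hx1 : (⟨x, hx.2⟩ : L) ∈ (N.subgroupOf L) ⊔ (H.subgroupOf L) :=
              Subgroup.mem_sup_left hx.1
            rw [h1] at hx1
            exact hx1
          · exact h1
        -- commutativity of the quotient
        have hQcomm : ∀ a b : L, a⁻¹ * b⁻¹ * a * b ∈ H.subgroupOf L := by
          intro a b
          have hmk : ∀ a : L, ∃ x : L, x ∈ N.subgroupOf L ∧
              QuotientGroup.mk' (H.subgroupOf L) a = QuotientGroup.mk' (H.subgroupOf L) x := by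
            intro a
            have ha : a ∈ (N.subgroupOf L) ⊔ (H.subgroupOf L) := by rw [hsup]; trivial
            rw [Subgroup.mem_sup_of_normal_right] at ha
            obtain ⟨x, hx, y, hy, hxy⟩ := ha
            refine ⟨x, hx, ?_⟩
            have hy1 : QuotientGroup.mk' (H.subgroupOf L) y = 1 := (QuotientGroup.eq_one_iff y).mpr hy
            rw [← hxy, map_mul, hy1, mul_one]
          obtain ⟨x, hx, hax⟩ := hmk a
          obtain ⟨y, hy, hby⟩ := hmk b
          rw [← QuotientGroup.eq_one_iff]
          show QuotientGroup.mk' (H.subgroupOf L) (a⁻¹ * b⁻¹ * a * b) = 1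
          rw [map_mul, map_mul, map_mul, map_inv, map_inv, hax, hby, ← map_inv, ← map_inv,
            ← map_mul, ← map_mul, ← map_mul]
          have hxy : x * y = y * x := by
            apply Subtype.ext
            exact hcomm x.1 hx y.1 hy
          have h2 : x⁻¹ * y⁻¹ * x * y = 1 := by
            have : x⁻¹ * y⁻¹ * x * y = (y * x)⁻¹ * (x * y) := by group
            rw [this, hxy, inv_mul_cancel]
          rw [h2, map_one]
        let _ : CommGroup (L ⧸ H.subgroupOf L) :=
          { (inferInstance : Group (L ⧸ H.subgroupOf L)) with
            mul_comm := by
              intro a b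
              induction a using QuotientGroup.induction_on with
              | H a =>
                induction b using QuotientGroup.induction_on with
                | H b =>
                  rw [← QuotientGroup.mk_mul, ← QuotientGroup.mk_mul, QuotientGroup.eq]
                  have : (a * b)⁻¹ * (b * a) = b⁻¹ * a⁻¹ * b * a := by group
                  rw [this]
                  exact hQcomm b a }
        have _ : IsSimpleGroup (L ⧸ H.subgroupOf L) :=
          { exists_pair_ne := by
              obtain ⟨a, ha⟩ : ∃ a : L, a ∉ H.subgroupOf L := by
                by_contra hcon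
                push Not at hcon
                exact hne (eq_top_iff.mpr fun x _ => hcon x)
              refine ⟨QuotientGroup.mk a, 1, ?_⟩
              intro h
              exact ha ((QuotientGroup.eq_one_iff a).mp h)
            eq_bot_or_eq_top_of_normal := by
              intro M hM
              have h1 := hmax (M.comap (QuotientGroup.mk' (H.subgroupOf L))) inferInstance (by
                intro x hx
                show QuotientGroup.mk' _ x ∈ M
                have : QuotientGroup.mk' (H.subgroupOf L) x = 1 := (QuotientGroup.eq_one_iff x).mpr hx
                rw [this]; exact M.one_mem)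
              rcases h1 with h1 | h1
              · left
                rw [eq_bot_iff]
                intro q hq
                induction q using QuotientGroup.induction_on with
                | H a =>
                  have ha : a ∈ M.comap (QuotientGroup.mk' (H.subgroupOf L)) := hq
                  rw [h1] at ha
                  rw [Subgroup.mem_bot]
                  exact (QuotientGroup.eq_one_iff a).mpr ha
              · right
                rw [eq_top_iff]
                intro q _
                induction q using QuotientGroup.induction_on with
                | H a =>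
                  have ha : a ∈ M.comap (QuotientGroup.mk' (H.subgroupOf L)) := by
                    rw [h1]; trivial
                  exact ha }
        have hfin : Finite (L ⧸ H.subgroupOf L) := by
          have := IsSimpleGroup.prime_card (α := L ⧸ H.subgroupOf L)
          exact Nat.finite_of_card_ne_zero this.ne_zero
        have hHL : H.relIndex L ≠ 0 := by
          unfold Subgroup.relIndex
          rw [Subgroup.index_ne_zero_iff_finite]
          exact hfin
        have h3 : H.relIndex (N ⊓ L) ≠ 0 := by
          intro h4
          apply hHL
          exact Subgroup.relIndex_eq_zero_of_le_right inf_le_right h4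
        have h5 : (N ⊓ H).relIndex (N ⊓ L) = H.relIndex (N ⊓ L) := by
          have := Subgroup.inf_relIndex_left (N ⊓ L) H
          rw [← this]
          have h6 : N ⊓ L ⊓ H = N ⊓ H := by
            rw [inf_assoc, inf_eq_right.mpr hle]
          rw [h6]
        rw [h5]; exact h3
  have hfinal := key (Fin.last n)
  rw [hlast, inf_top_eq] at hfinal
  unfold Subgroup.relIndex at hfinal
  rw [Subgroup.bot_subgroupOf, Subgroup.index_bot] at hfinal
  exact hfinal (@Nat.card_eq_zero_of_infinite _ hinf)

theorem simple_A : IsSimpleGroup iA.range := by
  have := isSimple_A0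
  exact (MonoidHom.ofInjective iA_inj).symm.isSimpleGroup

theorem simple_B : IsSimpleGroup iB.range := by
  have := isSimple_A0
  exact (MonoidHom.ofInjective iB_inj).symm.isSimpleGroup

/-- A group with a strictly decreasing infinite sequence of normal subgroups has no principal
series. -/
theorem no_principal_series {G : Type} [Group G] (K : ℕ → Subgroup G) (hK : ∀ k, (K k).Normal)
    (hlt : ∀ k, K (k + 1) < K k)
    (h : ∃ m : ℕ, ∃ s : Fin (m + 1) → Subgroup G, s 0 = ⊥ ∧ s (Fin.last m) = ⊤ ∧
      (∀ i, (s i).Normal) ∧
      ∀ i : Fin m, s i.castSucc < s i.succ ∧ ∀ M : Subgroup G, M.Normal →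
        s i.castSucc ≤ M → M ≤ s i.succ → M = s i.castSucc ∨ M = s i.succ) : False := by
  classical
  obtain ⟨m, s, h0, hlast, hnorm, hs⟩ := h
  -- the set of indices at which M jumps
  let J : Subgroup G → Finset (Fin m) := fun M =>
    Finset.univ.filter (fun i => ¬ (M ⊓ s i.succ ≤ s i.castSucc))
  have hmono : ∀ M M' : Subgroup G, M ≤ M' → J M ⊆ J M' := by
    intro M M' hMM i hi
    simp only [J, Finset.mem_filter, Finset.mem_univ, true_and] at hi ⊢
    exact fun hcon => hi ((inf_le_inf_right _ hMM).trans hcon)
  have hstrict : ∀ M M' : Subgroup G, M.Normal → M'.Normal → M < M' → (J M).card < (J M').card := by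
    intro M M' hM hM' hlt
    apply Finset.card_lt_card
    refine ⟨hmono M M' hlt.le, fun hsub => ?_⟩
    have key : ∀ i : Fin (m + 1), M' ⊓ s i ≤ M := by
      intro i
      induction i using Fin.induction with
      | zero => rw [h0, inf_bot_eq]; exact bot_le
      | succ i ih =>
        by_cases hi : M' ⊓ s i.succ ≤ s i.castSucc
        · exact (le_inf inf_le_left hi).trans ih
        · have hiJ : i ∈ J M := hsub (by
            simp only [J, Finset.mem_filter, Finset.mem_univ, true_and]; exact hi)
          simp only [J, Finset.mem_filter, Finset.mem_univ, true_and] at hiJ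
          have hn1 := hnorm i.castSucc
          have hn2 := hnorm i.succ
          have h1 := (hs i).2 ((M ⊓ s i.succ) ⊔ s i.castSucc) inferInstance le_sup_right
            (sup_le inf_le_right (hs i).1.le)
          rcases h1 with h1 | h1
          · exact absurd (le_sup_left.trans h1.le) hiJ
          · intro x hx
            have hx1 : x ∈ (M ⊓ s i.succ) ⊔ s i.castSucc := by rw [h1]; exact hx.2
            rw [Subgroup.mem_sup_of_normal_right] at hx1
            obtain ⟨y, hy, z, hz, rfl⟩ := hx1
            have hyM' : y ∈ M' := hlt.le hy.1
            have hzM' : z ∈ M' := by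
              have := M'.mul_mem (M'.inv_mem hyM') hx.1
              rwa [inv_mul_cancel_left] at this
            exact M.mul_mem hy.1 (ih ⟨hzM', hz⟩)
    have hfin := key (Fin.last m)
    rw [hlast, inf_top_eq] at hfin
    exact absurd (lt_of_lt_of_le hlt hfin) (lt_irrefl _)
  -- infinite descent
  have hdesc : ∀ k, (J (K k)).card + k ≤ (J (K 0)).card := by
    intro k
    induction k with
    | zero => omega
    | succ k ih =>
      have := hstrict _ _ (hK (k + 1)) (hK k) (hlt k)
      omega
  have := hdesc ((J (K 0)).card + 1)
  omega

end Pool.Agent.Helper55
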